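import Mathlib.RingTheory.Polynomial.Basic
import Mathlib.Algebra.Polynomial.Div
import Mathlib.Topology.Sheaves.Presheaf
import Mathlib.Algebra.Order.Ring.Star
import Mathlib.LinearAlgebra.Vandermonde
import Mathlib.Tactic.Bound
import Mathlib.Algebra.Order.Star.Real
import Mathlib.RingTheory.PowerSeries.Trunc
import Mathlib.NumberTheory.Padics.PadicIntegers
import Mathlib.LinearAlgebra.Matrix.AbsoluteValue
import Mathlib.RingTheory.PiTensorProduct
import Mathlib.RingTheory.PowerSeries.Catalan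

-- ======== part 0: formerly Pool.Agent.MP_df75fe_nt.Det
section MrgPart0

/-! A 2-adic determinant for square roots of `1 - 64 x y`. -/

set_option autoImplicit false
open Matrix Finset

namespace Pool.Agent.MP_df75fe_nt
noncomputable section

abbrev O := ℤ_[2]

lemma unit_of_not_dvd {z : O} (h : ¬ (2 : O) ∣ z) : IsUnit z := by
  by_contra hz
  exact h (by simpa using (PadicInt.norm_lt_one_iff_dvd z).1 (PadicInt.not_isUnit_iff.1 hz))

lemma two_not_unit : ¬ IsUnit (2 : O) := by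
  simpa using (PadicInt.prime_p (p := 2)).not_isUnit

lemma unit_one_add {z : O} (h : (2 : O) ∣ z - 1) : IsUnit z := unit_of_not_dvd fun h2 =>
  two_not_unit (isUnit_of_dvd_one (by simpa using dvd_sub h2 h))

lemma eq_zero_of_dvd {z : O} (h : ∀ E : ℕ, (2 : O) ^ E ∣ z) : z = 0 := by
  by_contra hz
  have h0 : 0 < ‖z‖ := norm_pos_iff.2 hz
  obtain ⟨E, hE⟩ := exists_pow_lt_of_lt_one h0 (show (1 / 2 : ℝ) < 1 by norm_num)
  have h1 := (PadicInt.norm_le_pow_iff_mem_span_pow z E).2
    (Ideal.mem_span_singleton.2 (by simpa using h E))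
  rw [_root_.zpow_neg, zpow_natCast, ← inv_pow] at h1
  norm_num at h1 hE
  linarith

lemma sqrt_unique {x y : O} {E : ℕ} (hx : (4 : O) ∣ x - 1) (hy : (4 : O) ∣ y - 1)
    (h : (2 : O) ^ (E + 1) ∣ x ^ 2 - y ^ 2) : (2 : O) ^ E ∣ x - y := by
  obtain ⟨a, ha⟩ := hx
  obtain ⟨b, hb⟩ := hy
  have e : x ^ 2 - y ^ 2 = (x - y) * (1 + 2 * (a + b)) * 2 := by
    linear_combination (x - y) * ha + (x - y) * hb
  rw [e, pow_succ, mul_dvd_mul_iff_right two_ne_zero] at h
  exact (unit_one_add (z := 1 + 2 * (a + b)) ⟨a + b, by ring⟩).dvd_mul_right.1 h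

/-- the coefficients of the square root of `1 - 64 t` -/
def dd : ℕ → ℤ
  | 0 => 1
  | n + 1 => -2 * catalan n * 16 ^ (n + 1)

lemma cat_trunc {R : Type*} [CommRing R] (K : ℕ) (z : R) :
    z ^ K ∣ (∑ n ∈ range K, (catalan n : R) * z ^ n) ^ 2 * z + 1 -
      ∑ n ∈ range K, (catalan n : R) * z ^ n := by
  have h0 := congrArg (PowerSeries.map (Nat.castRingHom R))
    PowerSeries.catalanSeries_sq_mul_X_add_one
  set f := PowerSeries.map (Nat.castRingHom R) PowerSeries.catalanSeries with hf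
  rw [map_add, map_mul, map_pow, PowerSeries.map_X, map_one] at h0
  obtain ⟨g, hg⟩ : (PowerSeries.X : PowerSeries R) ^ K ∣
      f - ((f.trunc K : Polynomial R) : PowerSeries R) :=
    PowerSeries.X_pow_dvd_iff.2 fun m hm => by
      simp [PowerSeries.coeff_trunc, hm]
  have h1 : (Polynomial.X : Polynomial R) ^ K ∣ (f.trunc K) ^ 2 * Polynomial.X + 1 - f.trunc K := by
    have h2 : (PowerSeries.X : PowerSeries R) ^ K ∣
        (((f.trunc K) ^ 2 * Polynomial.X + 1 - f.trunc K : Polynomial R) : PowerSeries R) := by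
      refine ⟨g - g * (f + ((f.trunc K : Polynomial R) : PowerSeries R)) * PowerSeries.X, ?_⟩
      push_cast
      linear_combination h0 +
        (1 - (f + ((f.trunc K : Polynomial R) : PowerSeries R)) * PowerSeries.X) * hg
    exact Polynomial.X_pow_dvd_iff.2 fun m hm => by
      simpa only [Polynomial.coeff_coe] using PowerSeries.X_pow_dvd_iff.1 h2 m hm
  have h3 := Polynomial.eval_dvd (x := z) h1
  have h4 : (f.trunc K).eval z = ∑ n ∈ range K, (catalan n : R) * z ^ n := by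
    rw [Polynomial.eval, PowerSeries.eval₂_trunc_eq_sum_range]
    refine sum_congr rfl fun n _ => ?_
    rw [hf, PowerSeries.coeff_map]
    simp
  simpa [h4] using h3

lemma series (K : ℕ) (t : O) : (4 : O) ∣ (∑ n ∈ range (K + 1), (dd n : O) * t ^ n) - 1 ∧
    (2 : O) ^ (K + 1) ∣ (1 - 64 * t) - (∑ n ∈ range (K + 1), (dd n : O) * t ^ n) ^ 2 := by
  have e : ∑ n ∈ range (K + 1), (dd n : O) * t ^ n =
      1 - 2 * (16 * t) * ∑ n ∈ range K, (catalan n : O) * (16 * t) ^ n := by
    rw [sum_range_succ', mul_sum, sub_eq_neg_add, ← sum_neg_distrib]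
    simp only [dd, pow_zero, mul_one, Int.cast_one]
    congr 1
    refine sum_congr rfl fun n _ => ?_
    push_cast
    ring
  obtain ⟨g, hg⟩ := cat_trunc K (16 * t)
  rw [e]
  refine ⟨⟨-(8 * t) * ∑ n ∈ range K, (catalan n : O) * (16 * t) ^ n, by ring⟩,
    ⟨-(32 * t) * (8 * t) ^ K * g, ?_⟩⟩
  have e2 : (16 * t) ^ K = 2 ^ K * (8 * t) ^ K := by rw [← mul_pow]; ring
  rw [e2] at hg
  linear_combination (-(64 * t)) * hg

lemma dd_dvd (n : ℕ) : (16 : O) ^ n ∣ (dd n : O) := by
  cases n with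
  | zero => simp
  | succ n => exact ⟨-2 * catalan n, by simp only [dd]; push_cast; ring⟩

/-- powers of the nodes in terms of the first powers -/
lemma rems {s : ℕ} (x : Fin s → O) : ∃ H : ℕ → Fin s → O,
    (∀ n i, x i ^ n = ∑ j : Fin s, x i ^ (j : ℕ) * H n j) ∧
    ∀ n < s, ∀ j : Fin s, H n j = if n = j then 1 else 0 := by
  set q : Polynomial O := ∏ i, (Polynomial.X - Polynomial.C (x i)) with hq
  have hm : q.Monic := Polynomial.monic_prod_of_monic _ _ fun i _ => Polynomial.monic_X_sub_C _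
  have hd : q.degree = s := by
    rw [hq, Polynomial.degree_prod]; simp
  refine ⟨fun n j => ((Polynomial.X ^ n) %ₘ q).coeff j, fun n i => ?_, fun n hn j => ?_⟩
  · have h1 : ((Polynomial.X ^ n) %ₘ q).eval (x i) = x i ^ n := by
      have h2 := congrArg (Polynomial.eval (x i)) (Polynomial.modByMonic_add_div (Polynomial.X ^ n) q)
      have h3 : q.eval (x i) = 0 := by
        rw [hq, Polynomial.eval_prod]
        exact prod_eq_zero (mem_univ i) (by simp)
      simpa [h3] using h2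
    have h4 : ((Polynomial.X ^ n) %ₘ q).degree < s := hd ▸ Polynomial.degree_modByMonic_lt _ hm
    rw [← h1, Polynomial.eval_eq_sum_degreeLTEquiv (Polynomial.mem_degreeLT.2 h4)]
    exact sum_congr rfl fun j _ => mul_comm _ _
  · beta_reduce
    rw [(Polynomial.modByMonic_eq_self_iff hm).2 (by
      rw [hd, Polynomial.degree_X_pow]; exact_mod_cast hn), Polynomial.coeff_X_pow]
    simp [eq_comm]

/-- the matrix of square roots factors through the two Vandermonde matrices -/
lemma factor {s : ℕ} (x y : Fin s → O) (T : Matrix (Fin s) (Fin s) O)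
    (h1 : ∀ i k, (4 : O) ∣ T i k - 1) (h2 : ∀ i k, T i k ^ 2 = 1 - 64 * (x i * y k)) (E : ℕ) :
    ∃ Z Y : Matrix (Fin s) (Fin s) O, T = vandermonde x *
      (diagonal (fun j : Fin s => (dd j : O)) + (16 : O) ^ s • Z) * (vandermonde y)ᵀ +
      (2 : O) ^ E • Y := by
  obtain ⟨H, hH, hH'⟩ := rems x
  obtain ⟨G, hG, hG'⟩ := rems y
  have a1 : ∀ i k, (2 : O) ^ E ∣ T i k - ∑ n ∈ range (s + E + 1), (dd n : O) * (x i * y k) ^ n :=
    fun i k => (pow_dvd_pow _ (Nat.le_add_left E s)).trans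
      (sqrt_unique (h1 i k) (series _ _).1 (by rw [h2]; exact (series _ _).2))
  choose Y hY using a1
  have a2 : ∀ j l : Fin s, (16 : O) ^ s ∣ ∑ n ∈ range (s + E + 1), (dd n : O) * (H n j * G n l) -
      diagonal (fun j : Fin s => (dd j : O)) j l := fun j l => by
    rw [add_assoc, sum_range_add]
    have a3 : ∑ n ∈ range s, (dd n : O) * (H n j * G n l) =
        diagonal (fun j : Fin s => (dd j : O)) j l := by
      rw [sum_eq_single (j : ℕ)]
      · rw [hH' _ j.2, hG' _ j.2, diagonal_apply]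
        simp [Fin.ext_iff]
      · intro n hn hj
        rw [hH' n (mem_range.1 hn), if_neg hj]; simp
      · intro hj; exact absurd (mem_range.2 j.2) hj
    rw [a3, add_sub_cancel_left]
    exact dvd_sum fun n _ => ((pow_dvd_pow _ (Nat.le_add_right s n)).trans (dd_dvd _)).mul_right _
  choose Z hZ using a2
  refine ⟨of Z, of Y, ?_⟩
  ext i k
  have a4 : ∀ j l, (diagonal (fun j : Fin s => (dd j : O)) + (16 : O) ^ s • of Z) j l =
      ∑ n ∈ range (s + E + 1), (dd n : O) * (H n j * G n l) := fun j l => by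
    rw [Matrix.add_apply, Matrix.smul_apply, of_apply, smul_eq_mul, ← hZ]; ring
  rw [Matrix.add_apply, Matrix.smul_apply, of_apply, smul_eq_mul, ← hY, mul_apply]
  simp only [mul_apply, a4, transpose_apply, vandermonde_apply]
  have a5 : ∀ n, (dd n : O) * (x i * y k) ^ n = ∑ l : Fin s, ∑ j : Fin s,
      x i ^ (j : ℕ) * ((dd n : O) * (H n j * G n l)) * y k ^ (l : ℕ) := fun n => by
    rw [mul_pow, hH n i, hG n k, mul_comm (∑ j : Fin s, _), sum_mul_sum, mul_sum]
    refine sum_congr rfl fun l _ => ?_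
    rw [mul_sum]
    exact sum_congr rfl fun j _ => by ring
  have a6 : ∑ n ∈ range (s + E + 1), (dd n : O) * (x i * y k) ^ n = ∑ l : Fin s,
      (∑ j : Fin s, x i ^ (j : ℕ) * ∑ n ∈ range (s + E + 1), (dd n : O) * (H n j * G n l)) *
        y k ^ (l : ℕ) := by
    simp only [a5, mul_sum, sum_mul]
    rw [sum_comm]
    exact sum_congr rfl fun l _ => sum_comm
  rw [← a6]; ring

lemma det_cong {R : Type*} [CommRing R] {s : ℕ} (A B : Matrix (Fin s) (Fin s) R) (a : R) :
    a ∣ (A + a • B).det - A.det := by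
  rw [← Ideal.mem_span_singleton, ← Ideal.Quotient.eq, RingHom.map_det, RingHom.map_det]
  congr 1
  ext i j
  simp [Ideal.Quotient.eq_zero_iff_mem.2 (Ideal.mem_span_singleton_self a)]

lemma det_rows {R : Type*} [CommRing R] {s t : ℕ} (P : Matrix (Fin t) (Fin s) R)
    (B : Matrix (Fin s) (Fin t) R) (h : (P * B).det ≠ 0) :
    ∃ f : Fin t → Fin s, (B.submatrix f id).det ≠ 0 := by
  by_contra hc
  push Not at hc
  apply h
  have e : P * B = fun i => ∑ j, P i j • B j := by
    ext i k; simp [mul_apply]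
  rw [e]
  show detRowAlternating (fun i => ∑ j, P i j • B j) = 0
  rw [← AlternatingMap.coe_multilinearMap, MultilinearMap.map_sum]
  refine sum_eq_zero fun f _ => ?_
  rw [MultilinearMap.map_smul_univ]
  exact smul_eq_zero_of_right _ (hc f)

lemma inj_of_det {R : Type*} [CommRing R] {s t : ℕ} {B : Matrix (Fin s) (Fin t) R}
    {f : Fin t → Fin s} (h : (B.submatrix f id).det ≠ 0) : Function.Injective f := fun i j e => by
  by_contra hij
  exact h (det_zero_of_row_eq hij (by ext k; simp [e]))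

/-- a large minor does not vanish -/
lemma minor_ne {s t : ℕ} (hts : t ≤ s) (x y : Fin s → O) (hx : Function.Injective x)
    (hy : Function.Injective y) (T : Matrix (Fin s) (Fin s) O)
    (h1 : ∀ i k, (4 : O) ∣ T i k - 1) (h2 : ∀ i k, T i k ^ 2 = 1 - 64 * (x i * y k))
    (hd : ∀ j < t, 2 * (dd j : O) ∣ 16 ^ s) :
    ∃ f g : Fin t → Fin s, Function.Injective f ∧ Function.Injective g ∧
      (T.submatrix f g).det ≠ 0 := by
  set e := Fin.castLE hts
  set δ := (vandermonde x).det * (vandermonde y).det with hδ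
  have k1 : ((adjugate (vandermonde x)).submatrix e id *
      (T * (adjugate (vandermonde y)ᵀ).submatrix id e)).det ≠ 0 := fun h0 => by
    have k2 : δ ^ t * ∏ j : Fin t, (dd j : O) = 0 := eq_zero_of_dvd fun E => by
      obtain ⟨Z, Y, hT⟩ := factor x y T h1 h2 E
      choose c hc using fun j : Fin t => hd j j.2
      have k3 : (adjugate (vandermonde x)).submatrix e id *
          (T * (adjugate (vandermonde y)ᵀ).submatrix id e) =
          δ • (diagonal (fun j : Fin t => (dd j : O)) *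
            (1 + (2 : O) • (diagonal c * Z.submatrix e e))) + (2 : O) ^ E •
            (adjugate (vandermonde x) * Y * adjugate (vandermonde y)ᵀ).submatrix e e := by
        have k4 : adjugate (vandermonde x) * (T * adjugate (vandermonde y)ᵀ) =
            δ • (diagonal (fun j : Fin s => (dd j : O)) + (16 : O) ^ s • Z) + (2 : O) ^ E •
              (adjugate (vandermonde x) * Y * adjugate (vandermonde y)ᵀ) := by
          rw [hT, add_mul, Matrix.mul_assoc _ (vandermonde y)ᵀ, mul_adjugate, mul_add,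
            ← Matrix.mul_assoc, ← Matrix.mul_assoc, adjugate_mul, det_transpose, hδ]
          simp only [Matrix.mul_smul, Matrix.smul_mul, Matrix.mul_one, Matrix.one_mul, smul_smul,
            Matrix.mul_assoc, mul_comm (vandermonde y).det]
        have k5 := congrArg (fun A => Matrix.submatrix A e e) k4
        simp only [submatrix_mul _ _ e id e Function.bijective_id] at k5
        rw [show (T * adjugate (vandermonde y)ᵀ).submatrix id e =
          T * (adjugate (vandermonde y)ᵀ).submatrix id e from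
            submatrix_mul _ _ id id e Function.bijective_id] at k5
        rw [k5]
        ext i j
        have k6 : diagonal (fun j : Fin s => (dd j : O)) (e i) (e j) =
            diagonal (fun j : Fin t => (dd j : O)) i j := by
          simp [diagonal_apply, e]
        simp only [submatrix_apply, Matrix.add_apply, Matrix.smul_apply, smul_eq_mul, mul_add, mul_one, k6,
          Matrix.mul_smul, diagonal_mul, hc i]
        ring
      have k7 := det_cong (δ • (diagonal (fun j : Fin t => (dd j : O)) *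
        (1 + (2 : O) • (diagonal c * Z.submatrix e e))))
        ((adjugate (vandermonde x) * Y * adjugate (vandermonde y)ᵀ).submatrix e e) ((2 : O) ^ E)
      rw [← k3, h0, zero_sub, dvd_neg, det_smul, det_mul, det_diagonal, Fintype.card_fin,
        ← mul_assoc] at k7
      have k8 := det_cong 1 (diagonal c * Z.submatrix e e) (2 : O)
      rw [det_one] at k8
      exact (unit_one_add k8).dvd_mul_right.1 k7
    refine mul_ne_zero (pow_ne_zero _ (mul_ne_zero (det_vandermonde_ne_zero_iff.2 hx)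
      (det_vandermonde_ne_zero_iff.2 hy))) (prod_ne_zero_iff.2 fun j _ h0 => ?_) k2
    have := hd j j.2
    rw [h0, mul_zero, zero_dvd_iff] at this
    exact pow_ne_zero s (by norm_num) this
  obtain ⟨f, hf⟩ := det_rows _ _ k1
  have hf' := inj_of_det hf
  rw [← det_transpose, show ((T * (adjugate (vandermonde y)ᵀ).submatrix id e).submatrix f id)ᵀ =
    ((adjugate (vandermonde y)ᵀ).submatrix id e)ᵀ * (T.submatrix f id)ᵀ by
      rw [← transpose_mul]; rfl] at hf
  obtain ⟨g, hg⟩ := det_rows _ _ hf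
  exact ⟨f, g, hf', inj_of_det hg, by rw [← det_transpose]; exact hg⟩

/-- every minor is divisible by a high power of two -/
lemma minor_dvd {t : ℕ} (x y : Fin t → O) (T : Matrix (Fin t) (Fin t) O)
    (h1 : ∀ i k, (4 : O) ∣ T i k - 1) (h2 : ∀ i k, T i k ^ 2 = 1 - 64 * (x i * y k)) (E : ℕ)
    (hE : (2 : O) ^ E ∣ (vandermonde x).det * (∏ j : Fin t, (16 : O) ^ (j : ℕ)) *
      (vandermonde y).det) : (2 : O) ^ E ∣ T.det := by
  obtain ⟨Z, Y, hT⟩ := factor x y T h1 h2 E
  have k1 := det_cong (vandermonde x *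
    (diagonal (fun j : Fin t => (dd j : O)) + (16 : O) ^ t • Z) * (vandermonde y)ᵀ) Y ((2 : O) ^ E)
  rw [← hT] at k1
  refine (dvd_sub_left ?_).1 k1
  rw [det_mul, det_mul, det_transpose]
  refine hE.trans (mul_dvd_mul_right (mul_dvd_mul_left _ ?_) _)
  have k2 : ∀ j l : Fin t, (16 : O) ^ (j : ℕ) ∣
      (diagonal (fun j : Fin t => (dd j : O)) + (16 : O) ^ t • Z) j l := fun j l => by
    rw [Matrix.add_apply, Matrix.smul_apply, smul_eq_mul, diagonal_apply]
    refine dvd_add ?_ ((pow_dvd_pow _ j.2.le).mul_right _)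
    split_ifs
    exacts [dd_dvd _, dvd_zero _]
  choose M hM using k2
  refine ⟨(of M).det, ?_⟩
  rw [← det_mul_column]
  congr 1
  ext j l
  exact hM j l

end
end Pool.Agent.MP_df75fe_nt

end MrgPart0

-- ======== part 1: formerly Pool.Agent.MP_df75fe_nt.Core
section MrgPart1

/-! The size bound for two families whose cross sums are squares of odd numbers. -/

set_option autoImplicit false
open Matrix Finset

namespace Pool.Agent.MP_df75fe_nt
noncomputable section

lemma two_pow_dvd (l : ℕ) : ∀ k < 2 ^ l, 2 ^ k ∣ 2 ^ l * k.factorial := by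
  have h2 : ∀ m : ℕ, 2 ^ m * m.factorial ∣ (2 * m).factorial := fun m => by
    induction m with
    | zero => simp
    | succ m ih =>
      obtain ⟨c, hc⟩ := ih
      exact ⟨(2 * m + 1) * c, by
        rw [show 2 * (m + 1) = 2 * m + 1 + 1 by ring, Nat.factorial_succ, Nat.factorial_succ,
          Nat.factorial_succ, hc]; ring⟩
  induction l with
  | zero => intro k hk; obtain rfl : k = 0 := by omega
            simp
  | succ l ih =>
    intro k hk
    obtain ⟨c, hc⟩ := ih (k / 2) (by rw [pow_succ] at hk; omega)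
    obtain ⟨d, hd⟩ := (h2 (k / 2)).trans (Nat.factorial_dvd_factorial (Nat.mul_div_le k 2))
    refine (pow_dvd_pow 2 (show k ≤ k / 2 + k / 2 + 1 by omega)).trans ⟨c * d, ?_⟩
    rw [hd]
    linear_combination (2 * 2 ^ (k / 2) * d) * hc

lemma vand_dvd {t l : ℕ} (ht : t ≤ 2 ^ l) (U : Fin t → ℤ) :
    (2 : ℤ) ^ (∑ j ∈ range t, j) ∣ 2 ^ (l * t) * (vandermonde U).det := by
  cases t with
  | zero => simp
  | succ t =>
    refine Dvd.dvd.trans ?_ (mul_dvd_mul_left _ (superFactorial_dvd_vandermonde_det U))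
    have h : 2 ^ (∑ j ∈ range (t + 1), j) ∣ 2 ^ (l * (t + 1)) * t.superFactorial := by
      rw [← Nat.prod_range_succ_factorial, ← prod_pow_eq_pow_sum, pow_mul, ← card_range (t + 1),
        ← prod_const, card_range, ← prod_mul_distrib]
      exact prod_dvd_prod_of_dvd _ _ fun j hj => two_pow_dvd l j ((mem_range.1 hj).trans_le ht)
    exact_mod_cast Int.natCast_dvd_natCast.2 h

lemma vand_dvd' {t l : ℕ} (ht : t ≤ 2 ^ l) (U : Fin t → ℤ) (hU : ∀ i, 2 ∣ U i) :
    (2 : ℤ) ^ (2 * ∑ j ∈ range t, j) ∣ 2 ^ (l * t) * (vandermonde U).det := by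
  choose V hV using hU
  have e : (vandermonde U).det = 2 ^ (∑ j ∈ range t, j) * (vandermonde V).det := by
    rw [← prod_pow_eq_pow_sum, ← Fin.prod_univ_eq_prod_range (fun j => (2 : ℤ) ^ j),
      ← det_mul_row]
    congr 1
    ext i j
    simp [hV, mul_pow]
  rw [e, two_mul, pow_add, mul_left_comm]
  exact mul_dvd_mul_left _ (vand_dvd ht V)

lemma cast_dvd {E : ℕ} {z : ℤ} : (2 : O) ^ E ∣ (z : O) ↔ (2 : ℤ) ^ E ∣ z := by
  simpa using PadicInt.pow_p_dvd_int_iff (p := 2) E z

lemma nat_dvd {m : ℕ} (hm : m ≠ 0) : (m : O) ∣ 2 ^ m.factorization 2 := by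
  have h1 : IsUnit ((m / 2 ^ m.factorization 2 : ℕ) : O) := unit_of_not_dvd fun h =>
    Nat.not_dvd_ordCompl Nat.prime_two hm (by
      have := (cast_dvd (E := 1) (z := ((m / 2 ^ m.factorization 2 : ℕ) : ℤ))).1
        (by rwa [pow_one, Int.cast_natCast])
      rw [pow_one] at this
      exact_mod_cast this)
  have h2 := congrArg (Nat.cast : ℕ → O) (Nat.ordProj_mul_ordCompl_eq_self m 2)
  rw [Nat.cast_mul, Nat.cast_pow, Nat.cast_ofNat] at h2
  rw [← h2, h1.mul_right_dvd]

lemma dd_small {s j : ℕ} (hj : j < s - (Nat.log 2 (2 * s) + 1) / 4) :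
    2 * (dd j : O) ∣ 16 ^ s := by
  rw [show (16 : O) ^ s = 2 ^ (4 * s) by rw [pow_mul]; norm_num]
  cases j with
  | zero => simpa [dd] using dvd_pow_self (2 : O) (show 4 * s ≠ 0 by omega)
  | succ n =>
    have h1 : (catalan n : O) ∣ 2 ^ Nat.log 2 (2 * s) := by
      have h2 : (catalan n : O) ∣ (n.centralBinom : O) :=
        Nat.cast_dvd_cast ⟨n + 1, by rw [← succ_mul_catalan_eq_centralBinom, mul_comm]⟩
      exact h2.trans ((nat_dvd (Nat.centralBinom_ne_zero n)).trans (pow_dvd_pow _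
        (Nat.factorization_choose_le_log.trans (Nat.log_mono_right (by omega)))))
    obtain ⟨c, hc⟩ := h1
    refine Dvd.dvd.trans ⟨-c, ?_⟩ (pow_dvd_pow (2 : O)
      (show 2 + Nat.log 2 (2 * s) + 4 * (n + 1) ≤ 4 * s by omega))
    rw [pow_add, pow_add, hc, pow_mul]
    simp only [dd]
    push_cast
    ring

lemma inv_of {a : ℤ} (h : 4 ∣ a - 1) : ∃ g : O, (a : O) * g = 1 ∧ (4 : O) ∣ g - 1 := by
  obtain ⟨c, hc⟩ := h
  have hc' : (a : O) - 1 = 4 * c := by exact_mod_cast congrArg (Int.cast : ℤ → O) hc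
  obtain ⟨g, hg⟩ := (unit_one_add (z := (a : O)) ⟨2 * c, by rw [hc']; ring⟩).exists_right_inv
  exact ⟨g, hg, ⟨-(c * g), by linear_combination hg - g * hc'⟩⟩

lemma mul_one_mod {a b : O} (ha : (4 : O) ∣ a - 1) (hb : (4 : O) ∣ b - 1) :
    (4 : O) ∣ a * b - 1 := by
  have := dvd_add (ha.mul_right b) hb
  rwa [show (a - 1) * b + (b - 1) = a * b - 1 by ring] at this

lemma unit_four {a : O} (ha : (4 : O) ∣ a - 1) : IsUnit a :=
  unit_one_add (Dvd.dvd.trans ⟨2, by norm_num⟩ ha)

lemma cast_four {a : ℤ} (h : 4 ∣ a - 1) : (4 : O) ∣ (a : O) - 1 := by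
  exact_mod_cast Int.cast_dvd_cast (α := O) _ _ h

/-- the nodes -/
lemma nodes {s : ℕ} (U α : Fin s → ℤ) (γ : ℤ) (hγ : 4 ∣ γ - 1) (hU : Function.Injective U)
    (eα : ∀ i, α i ^ 2 = γ ^ 2 + 8 * U i) (g : Fin s → O) (hg : ∀ i, (α i : O) * g i = 1) :
    Function.Injective (fun i => (U i : O) * g i ^ 2) ∧ ∀ {t : ℕ} (f : Fin t → Fin s),
      (((vandermonde (U ∘ f)).det : ℤ) : O) ∣
        (vandermonde ((fun i => (U i : O) * g i ^ 2) ∘ f)).det := by
  have e : ∀ i j, (U j : O) * g j ^ 2 - (U i : O) * g i ^ 2 =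
      ((U j : O) - U i) * (γ * g i * g j) ^ 2 := fun i j => by
    have ei : (α i : O) ^ 2 = γ ^ 2 + 8 * U i := by exact_mod_cast congrArg (Int.cast : ℤ → O) (eα i)
    have ej : (α j : O) ^ 2 = γ ^ 2 + 8 * U j := by exact_mod_cast congrArg (Int.cast : ℤ → O) (eα j)
    linear_combination (-(U j : O) * g j ^ 2 * (α i * g i + 1)) * hg i +
      ((U i : O) * g i ^ 2 * (α j * g j + 1)) * hg j + ((U j : O) * g i ^ 2 * g j ^ 2) * ei -
      ((U i : O) * g i ^ 2 * g j ^ 2) * ej
  refine ⟨fun i j h => ?_, fun f => ?_⟩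
  · have h1 := e i j
    rw [show (U j : O) * g j ^ 2 = (U i : O) * g i ^ 2 from h.symm, sub_self] at h1
    have h2 : ((γ : O) * g i * g j) ^ 2 ≠ 0 := pow_ne_zero _ (mul_ne_zero (mul_ne_zero
      (unit_four (cast_four hγ)).ne_zero (right_ne_zero_of_mul_eq_one (hg i)))
      (right_ne_zero_of_mul_eq_one (hg j)))
    have h3 := (mul_eq_zero.1 h1.symm).resolve_right h2
    exact hU (by exact_mod_cast (sub_eq_zero.1 h3).symm)
  · rw [det_vandermonde, det_vandermonde]
    push_cast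
    exact prod_dvd_prod_of_dvd _ _ fun i _ => prod_dvd_prod_of_dvd _ _ fun j _ => ⟨_, e _ _⟩

lemma core {s : ℕ} (hs : 0 < s) (U W α β : Fin s → ℤ) (γ : ℤ) (r : Matrix (Fin s) (Fin s) ℤ)
    (hU : Function.Injective U) (hW : Function.Injective W) (hU2 : ∀ i, 2 ∣ U i) (hγ : 4 ∣ γ - 1)
    (hα : ∀ i, 4 ∣ α i - 1) (hβ : ∀ i, 4 ∣ β i - 1) (hr : ∀ i k, 4 ∣ r i k - 1)
    (eα : ∀ i, α i ^ 2 = γ ^ 2 + 8 * U i) (eβ : ∀ i, β i ^ 2 = γ ^ 2 + 8 * W i)
    (er : ∀ i k, r i k ^ 2 = γ ^ 2 + 8 * U i + 8 * W k) (M : ℕ) (hM : ∀ i k, r i k ^ 2 ≤ M) :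
    128 ^ (s - 1) ≤ 256 * s ^ 8 * M := by
  choose g hg hg' using fun i => inv_of (hα i)
  choose h hh hh' using fun i => inv_of (hβ i)
  obtain ⟨x1, x2⟩ := nodes U α γ hγ hU eα g hg
  obtain ⟨y1, y2⟩ := nodes W β γ hγ hW eβ h hh
  set T : Matrix (Fin s) (Fin s) O := of fun i k => (γ * g i) * (h k * r i k) with hT
  have h1 : ∀ i k, (4 : O) ∣ T i k - 1 := fun i k =>
    mul_one_mod (mul_one_mod (cast_four hγ) (hg' i)) (mul_one_mod (hh' k) (cast_four (hr i k)))
  have h2 : ∀ i k, T i k ^ 2 = 1 - 64 * (((U i : O) * g i ^ 2) * ((W k : O) * h k ^ 2)) :=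
    fun i k => by
      have ei : (α i : O) ^ 2 = γ ^ 2 + 8 * U i := by
        exact_mod_cast congrArg (Int.cast : ℤ → O) (eα i)
      have ek : (β k : O) ^ 2 = γ ^ 2 + 8 * W k := by
        exact_mod_cast congrArg (Int.cast : ℤ → O) (eβ k)
      have ee : (r i k : O) ^ 2 = γ ^ 2 + 8 * U i + 8 * W k := by
        exact_mod_cast congrArg (Int.cast : ℤ → O) (er i k)
      have e1 : ((α i : O) * g i) ^ 2 * ((β k : O) * h k) ^ 2 = 1 := by rw [hg, hh]; ring
      rw [mul_pow, mul_pow, ei, ek] at e1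
      simp only [hT, of_apply]
      linear_combination e1 + ((γ : O) * g i * h k) ^ 2 * ee
  set L := Nat.log 2 (2 * s) with hL
  have hL1 : 2 ^ L ≤ 2 * s := Nat.pow_log_le_self 2 (by omega)
  have hL2 : L < 2 ^ L := Nat.lt_two_pow_self
  set t := s - (L + 1) / 4 with ht
  have ht0 : 0 < t := by omega
  obtain ⟨f, f', -, -, hdet⟩ := minor_ne (show t ≤ s by omega) _ _ x1 y1 T h1 h2
    (fun j hj => dd_small hj)
  set l := Nat.log 2 t + 1 with hl
  have hl1 : t ≤ 2 ^ l := (Nat.lt_pow_succ_log_self (by norm_num) t).le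
  have hl2 : 2 ^ l ≤ 2 * t := by
    rw [hl, pow_succ, mul_comm]; exact Nat.mul_le_mul_left _ (Nat.pow_log_le_self 2 ht0.ne')
  set S := ∑ j ∈ range t, j with hS
  have k1 : (2 : O) ^ (7 * S - 2 * (l * t)) ∣ (T.submatrix f f').det := by
    refine minor_dvd ((fun i => (U i : O) * g i ^ 2) ∘ f) ((fun i => (W i : O) * h i ^ 2) ∘ f')
      _ (fun i k => h1 _ _) (fun i k => h2 _ _) _ ?_
    obtain ⟨c, hc⟩ := x2 f
    obtain ⟨d, hd⟩ := y2 f'
    obtain ⟨c', hc'⟩ := Int.cast_dvd_cast (α := O) _ _ (vand_dvd' hl1 (U ∘ f) fun i => hU2 _)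
    obtain ⟨d', hd'⟩ := Int.cast_dvd_cast (α := O) _ _ (vand_dvd hl1 (W ∘ f'))
    rw [Int.cast_mul, Int.cast_pow, Int.cast_pow, Int.cast_ofNat, ← hS] at hc' hd'
    rw [Fin.prod_univ_eq_prod_range (fun j => (16 : O) ^ j), prod_pow_eq_pow_sum, ← hS, hc, hd]
    rcases le_total (7 * S) (2 * (l * t)) with hle | hle
    · simp [Nat.sub_eq_zero_of_le hle]
    · rw [← mul_dvd_mul_iff_left (pow_ne_zero (2 * (l * t)) (two_ne_zero (α := O))), ← pow_add,
        Nat.add_sub_cancel' hle]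
      refine ⟨c * d * c' * d', ?_⟩
      have e16 : (16 : O) ^ S = (2 ^ S) ^ 4 := by rw [← pow_mul, mul_comm, pow_mul]; norm_num
      rw [mul_comm 2, pow_mul _ S] at hc'
      rw [e16, mul_comm 7, mul_comm 2, pow_mul _ S, pow_mul _ (l * t)]
      linear_combination (c * d * (2 ^ S) ^ 4 * 2 ^ (l * t) *
        (((vandermonde (W ∘ f')).det : ℤ) : O)) * hc' + (c * d * c' * (2 ^ S) ^ 6) * hd'
  have k2 : (T.submatrix f f').det = (∏ i, (γ * g (f i))) * ((∏ k, h (f' k)) *
      (((r.submatrix f f').det : ℤ) : O)) := by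
    rw [Int.cast_det, ← det_mul_row, ← det_mul_column]
    rfl
  have k3 : (r.submatrix f f').det ≠ 0 := fun h0 => hdet (by rw [k2, h0]; simp)
  rw [k2, (IsUnit.prod_univ_iff.2 fun i => unit_four
    (mul_one_mod (cast_four hγ) (hg' (f i)))).dvd_mul_left, (IsUnit.prod_univ_iff.2 fun i =>
    unit_four (hh' (f' i))).dvd_mul_left, cast_dvd] at k1
  have k4 : |(r.submatrix f f').det| ≤ (t.factorial : ℤ) * (M.sqrt : ℤ) ^ t := by
    have := det_le (A := r.submatrix f f') (abv := AbsoluteValue.abs) (x := (M.sqrt : ℤ))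
      fun i k => by
        have h3 := hM (f i) (f' k)
        rw [← Int.natAbs_sq] at h3
        have h4 : (r (f i) (f' k)).natAbs ≤ M.sqrt := Nat.le_sqrt'.2 (by exact_mod_cast h3)
        simpa using Int.ofNat_le.2 h4
    simpa using this
  have k5 : 2 ^ (7 * S - 2 * (l * t)) ≤ t ^ t * M.sqrt ^ t := by
    have h3 := (Int.le_of_dvd (abs_pos.2 k3) ((dvd_abs _ _).2 k1)).trans k4
    exact le_trans (by exact_mod_cast h3) (Nat.mul_le_mul_right _ (Nat.factorial_le_pow t))
  have k6 : 128 ^ (t - 1) ≤ (4 * t ^ 3 * M.sqrt) ^ 2 := by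
    rw [← Nat.pow_le_pow_iff_left ht0.ne']
    have e1 : (128 ^ (t - 1)) ^ t = (2 ^ (7 * S)) ^ 2 := by
      rw [show 128 = 2 ^ 7 by norm_num, ← pow_mul, ← pow_mul, ← pow_mul]
      congr 1
      have := sum_range_id_mul_two t
      rw [← hS] at this
      rw [mul_comm (t - 1), ← this]; ring
    rw [e1, ← pow_mul (4 * t ^ 3 * M.sqrt) 2 t, mul_comm 2 t, pow_mul (4 * t ^ 3 * M.sqrt) t 2]
    refine Nat.pow_le_pow_left ?_ 2
    calc 2 ^ (7 * S) ≤ 2 ^ (2 * (l * t)) * 2 ^ (7 * S - 2 * (l * t)) := by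
          rw [← pow_add]; exact Nat.pow_le_pow_right (by norm_num) (by omega)
      _ ≤ ((2 * t) ^ 2) ^ t * (t ^ t * M.sqrt ^ t) := by
          refine Nat.mul_le_mul ?_ k5
          rw [show 2 * (l * t) = l * 2 * t by ring, pow_mul, pow_mul]; gcongr
      _ = _ := by rw [← mul_pow, ← mul_pow]; congr 1; ring
  have k7 : 128 ^ ((L + 1) / 4) ≤ 16 * s ^ 2 := by
    calc 128 ^ ((L + 1) / 4) ≤ 2 ^ ((L + 1) * 2) := by
          rw [show 128 = 2 ^ 7 by norm_num, ← pow_mul]
          exact Nat.pow_le_pow_right (by norm_num) (by omega)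
      _ ≤ (2 * s * 2) ^ 2 := by rw [pow_mul, pow_succ 2 L]; gcongr
      _ = _ := by ring
  calc 128 ^ (s - 1) = 128 ^ (t - 1) * 128 ^ ((L + 1) / 4) := by
        rw [← pow_add]
        congr 1; omega
    _ ≤ (4 * s ^ 3 * M.sqrt) ^ 2 * (16 * s ^ 2) :=
        Nat.mul_le_mul (k6.trans (by gcongr; omega)) k7
    _ = 256 * s ^ 8 * M.sqrt ^ 2 := by ring
    _ ≤ _ := by gcongr; exact Nat.sqrt_le' M

end
end Pool.Agent.MP_df75fe_nt

end MrgPart1

-- marker of a merged file
example : 731051 + 405927 = 731051 + 405927 := rfl
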