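import Mathlib.Data.Int.Star
import Mathlib.Algebra.Ring.IsFormallyReal
import Mathlib.Data.Finset.Slice
import Pool.Agent.MP_df75fe_nt.Core

/-! Reduction of a general square-sum set to the class `2 mod 8`. -/

set_option autoImplicit false
open Finset

namespace Pool.Agent.MP_df75fe_nt

lemma sq_mod {z : ℤ} (h : IsSquare z) : z % 8 = 1 ∨ z % 32 = 4 ∨ z % 128 = 16 ∨ z % 64 = 0 := by
  obtain ⟨k, rfl⟩ := h
  have h1 : ∀ j : ℤ, ∃ c, (2 * j + 1) * (2 * j + 1) = 8 * c + 1 := fun j => by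
    obtain ⟨c, hc⟩ := Int.even_mul_succ_self j
    exact ⟨c, by linear_combination 4 * hc⟩
  obtain ⟨j, rfl | rfl⟩ := Int.even_or_odd' k
  · obtain ⟨j, rfl | rfl⟩ := Int.even_or_odd' j
    · obtain ⟨j, rfl | rfl⟩ := Int.even_or_odd' j
      · rw [show 2 * (2 * (2 * j)) * (2 * (2 * (2 * j))) = 64 * (j * j) by ring]; omega
      · obtain ⟨c, hc⟩ := h1 j
        rw [show 2 * (2 * (2 * j + 1)) * (2 * (2 * (2 * j + 1))) = 128 * c + 16 by
          linear_combination 16 * hc]; omega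
    · obtain ⟨c, hc⟩ := h1 j
      rw [show 2 * (2 * j + 1) * (2 * (2 * j + 1)) = 32 * c + 4 by linear_combination 4 * hc]; omega
  · obtain ⟨c, hc⟩ := h1 j
    omega

lemma root {z : ℤ} (h : IsSquare z) (h8 : z % 8 = 4) : ∃ r : ℤ, 4 ∣ r - 1 ∧ 4 * r ^ 2 = z := by
  obtain ⟨k, rfl⟩ := h
  obtain ⟨j, rfl | rfl⟩ := Int.even_or_odd' k
  · obtain ⟨j, rfl | rfl⟩ := Int.even_or_odd' j
    · rw [show 2 * (2 * j) * (2 * (2 * j)) = 16 * (j * j) by ring] at h8; omega
    · obtain ⟨j, rfl | rfl⟩ := Int.even_or_odd' j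
      exacts [⟨4 * j + 1, by omega, by ring⟩, ⟨-(4 * j + 3), by omega, by ring⟩]
  · rw [show (2 * j + 1) * (2 * j + 1) = 2 * (2 * j * j + 2 * j) + 1 by ring] at h8; omega

lemma class_two (C : Finset ℤ) (hC : ∀ a ∈ C, ∀ b ∈ C, a ≠ b → IsSquare (a + b))
    (h8 : ∀ a ∈ C, a % 8 = 2) (N : ℕ) (hN : ∀ a ∈ C, a ≤ N) (h2 : 2 ≤ #C) :
    128 ^ #C ≤ 2 ^ 21 * #C ^ 16 * N ^ 2 := by
  set s := #C / 2 with hs
  have hs0 : 0 < s := by omega
  obtain ⟨R, hR, hRs, hR'⟩ : ∃ R ⊆ C, #R = s ∧ ∀ a ∈ R, ∀ b ∈ R, (a % 64 < 32 ↔ b % 64 < 32) := by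
    have := card_filter_add_card_filter_not (s := C) (fun a => a % 64 < 32)
    rcases le_total s #(C.filter fun a => a % 64 < 32) with h | h
    · obtain ⟨R, h1, h3⟩ := exists_subset_card_eq h
      exact ⟨R, h1.trans (filter_subset _ _), h3, fun a ha b hb =>
        iff_of_true (mem_filter.1 (h1 ha)).2 (mem_filter.1 (h1 hb)).2⟩
    · obtain ⟨R, h1, h3⟩ := exists_subset_card_eq
        (show s ≤ #(C.filter fun a => ¬ a % 64 < 32) by omega)
      exact ⟨R, h1.trans (filter_subset _ _), h3, fun a ha b hb =>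
        iff_of_false (mem_filter.1 (h1 ha)).2 (mem_filter.1 (h1 hb)).2⟩
  obtain ⟨D, hD, hDs⟩ := exists_subset_card_eq
    (show s ≤ #(C \ R) by rw [card_sdiff_of_subset hR]; omega)
  set a := R.orderEmbOfFin hRs
  set b := D.orderEmbOfFin hDs
  have ha : ∀ i, a i ∈ R := fun i => orderEmbOfFin_mem _ _ i
  have hb : ∀ i, b i ∈ C ∧ b i ∉ R := fun i => mem_sdiff.1 (hD (orderEmbOfFin_mem _ _ i))
  have hq : ∀ i k, IsSquare (a i + b k) := fun i k =>
    hC _ (hR (ha i)) _ (hb k).1 fun e => (hb k).2 (e ▸ ha i)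
  have h4 : ∀ i k, (a i + b k) % 8 = 4 := fun i k => by
    have := h8 _ (hR (ha i)); have := h8 _ (hb k).1; omega
  have h32 : ∀ i k, (a i + b k) % 32 = 4 := fun i k => by
    have := sq_mod (hq i k); have := h4 i k; omega
  choose r hr er using fun i k => root (hq i k) (h4 i k)
  set o : Fin s := ⟨0, hs0⟩
  have eU : ∀ i, a i = a o + 32 * ((a i - a o) / 32) ∧ 2 ∣ (a i - a o) / 32 := fun i => by
    have := h32 i o; have := h32 o o; have := hR' _ (ha i) _ (ha o); omega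
  have eW : ∀ k, b k = b o + 32 * ((b k - b o) / 32) := fun k => by
    have := h32 o k; have := h32 o o; omega
  have key := core hs0 (fun i => (a i - a o) / 32) (fun k => (b k - b o) / 32) (fun i => r i o)
    (fun k => r o k) (r o o) (Matrix.of r)
    (fun i j e => a.injective (by rw [(eU i).1, (eU j).1]; exact congrArg (a o + 32 * ·) e))
    (fun i j e => b.injective (by rw [eW i, eW j]; exact congrArg (b o + 32 * ·) e))
    (fun i => (eU i).2) (hr o o) (fun i => hr i o) (fun k => hr o k) hr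
    (fun i => by have := er i o; have := er o o; have := (eU i).1; linarith)
    (fun k => by have := er o k; have := er o o; have := eW k; linarith)
    (fun i k => by
      have := er i k; have := er o o; have := (eU i).1; have := eW k
      rw [Matrix.of_apply]; linarith) N
    (fun i k => by
      have := er i k; have := hN _ (hR (ha i)); have := hN _ (hb k).1
      have := Int.natCast_nonneg N
      rw [Matrix.of_apply]; linarith)
  calc 128 ^ #C ≤ 128 ^ 3 * (128 ^ (s - 1)) ^ 2 := by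
        rw [← pow_mul, ← pow_add]; exact Nat.pow_le_pow_right (by norm_num) (by omega)
    _ ≤ 128 ^ 3 * (256 * s ^ 8 * N) ^ 2 := by gcongr
    _ = 2 ^ 21 * (2 * s) ^ 16 * N ^ 2 := by ring
    _ ≤ _ := by gcongr; omega

lemma scale (A : Finset ℤ) (hA : ∀ a ∈ A, ∀ b ∈ A, a ≠ b → IsSquare (a + b)) (d : ℤ) (hd : d ≠ 0)
    (h : ∀ a ∈ A, d ^ 2 ∣ a) : #(A.image (· / d ^ 2)) = #A ∧
      ∀ a ∈ A.image (· / d ^ 2), ∀ b ∈ A.image (· / d ^ 2), a ≠ b → IsSquare (a + b) := by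
  refine ⟨card_image_of_injOn fun a ha b hb e => ?_, fun a ha b hb e => ?_⟩
  · rw [← Int.mul_ediv_cancel' (h a ha), ← Int.mul_ediv_cancel' (h b hb)]
    exact congrArg (d ^ 2 * ·) e
  · obtain ⟨x, hx, rfl⟩ := mem_image.1 ha
    obtain ⟨y, hy, rfl⟩ := mem_image.1 hb
    obtain ⟨k, hk⟩ := hA x hx y hy fun e' => e (by rw [e'])
    rw [← Int.mul_ediv_cancel' (h x hx), ← Int.mul_ediv_cancel' (h y hy), ← mul_add, ← sq] at hk
    obtain ⟨j, rfl⟩ := (Int.pow_dvd_pow_iff two_ne_zero).1 ⟨_, hk.symm⟩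
    exact ⟨j, mul_left_cancel₀ (pow_ne_zero 2 hd) (by rw [hk]; ring)⟩

lemma bound (N : ℕ) : ∀ A : Finset ℤ, (∀ a ∈ A, ∀ b ∈ A, a ≠ b → IsSquare (a + b)) →
    (∀ a ∈ A, a ≤ N) → 2 ≤ #A → 128 ^ #A ≤ 2 ^ 77 * #A ^ 16 * N ^ 2 := by
  induction N using Nat.strong_induction_on with | _ N ih => ?_
  intro A hA hN h2
  have hN0 : 0 < N := by
    obtain ⟨a, ha, b, hb, e⟩ := one_lt_card.1 h2
    have := (hA a ha b hb e).nonneg; have := hN a ha; have := hN b hb; omega
  have hm : ∀ a ∈ A, ∀ b ∈ A, a ≠ b → _ := fun a ha b hb e => sq_mod (hA a ha b hb e)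
  have small : #A ≤ 9 → 128 ^ #A ≤ 2 ^ 77 * #A ^ 16 * N ^ 2 := fun h =>
    calc 128 ^ #A ≤ 128 ^ 9 := Nat.pow_le_pow_right (by norm_num) h
      _ ≤ 2 ^ 77 * 1 ^ 16 * 1 ^ 2 := by norm_num
      _ ≤ _ := by gcongr <;> omega
  by_cases hB : ∃ b ∈ A, b % 16 = 0
  · obtain ⟨b, hb, hb'⟩ := hB
    have h1 : #(A.filter fun a => ¬ a % 16 = 0) ≤ 1 := card_le_one.2 fun x hx y hy => by
      obtain ⟨hx, hx'⟩ := mem_filter.1 hx
      obtain ⟨hy, hy'⟩ := mem_filter.1 hy
      by_contra e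
      have := hm x hx y hy e
      have := hm x hx b hb (by omega)
      have := hm y hy b hb (by omega)
      omega
    have h3 := card_filter_add_card_filter_not (s := A) (fun a => a % 16 = 0)
    set B := A.filter fun a => a % 16 = 0
    obtain ⟨h4, h5⟩ := scale B (fun x hx y hy => hA x (mem_filter.1 hx).1 y (mem_filter.1 hy).1)
      4 (by norm_num) fun x hx => by have := (mem_filter.1 hx).2; omega
    rcases le_or_gt #A 9 with h | h
    · exact small h
    have h6 := ih (N / 16) (by omega) _ h5 (fun x hx => by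
      obtain ⟨y, hy, rfl⟩ := mem_image.1 hx
      have := hN y (mem_filter.1 hy).1; omega) (by omega)
    rw [h4] at h6
    calc 128 ^ #A ≤ 128 ^ #B * 128 := by
          rw [← pow_succ]; exact Nat.pow_le_pow_right (by norm_num) (by omega)
      _ ≤ 2 ^ 77 * #B ^ 16 * (N / 16) ^ 2 * 256 := by gcongr; norm_num
      _ = 2 ^ 77 * #B ^ 16 * (16 * (N / 16)) ^ 2 := by ring
      _ ≤ _ := Nat.mul_le_mul (Nat.mul_le_mul_left _ (Nat.pow_le_pow_left (by omega) _))
        (Nat.pow_le_pow_left (by omega) _)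
  push Not at hB
  have three : ∀ u v : ℤ, (∀ x y z : ℤ, x % u = v → y % u = v → z % u = v →
      ((x + y) % 8 = 1 ∨ (x + y) % 32 = 4 ∨ (x + y) % 128 = 16 ∨ (x + y) % 64 = 0) →
      ((x + z) % 8 = 1 ∨ (x + z) % 32 = 4 ∨ (x + z) % 128 = 16 ∨ (x + z) % 64 = 0) →
      ((y + z) % 8 = 1 ∨ (y + z) % 32 = 4 ∨ (y + z) % 128 = 16 ∨ (y + z) % 64 = 0) → False) →
      #(A.filter fun a => a % u = v) ≤ 2 := fun u v h => by
    by_contra hc
    obtain ⟨x, y, z, hx, hy, hz, e1, e2, e3⟩ := two_lt_card_iff.1 (not_le.1 hc)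
    rw [mem_filter] at hx hy hz
    exact h x y z hx.2 hy.2 hz.2 (hm _ hx.1 _ hy.1 e1) (hm _ hx.1 _ hz.1 e2) (hm _ hy.1 _ hz.1 e3)
  have t1 := three 2 1 (by omega)
  have t2 := three 8 6 (by omega)
  have t3 := three 8 4 (by omega)
  have t4 := three 32 24 (by omega)
  obtain ⟨C, hC, h8, hCN, hc⟩ : ∃ C : Finset ℤ, (∀ a ∈ C, ∀ b ∈ C, a ≠ b → IsSquare (a + b)) ∧
      (∀ a ∈ C, a % 8 = 2) ∧ (∀ a ∈ C, a ≤ N) ∧
      #(A.filter fun a => a % 8 = 2 ∨ a % 32 = 8) ≤ #C := by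
    by_cases h : ∃ b ∈ A, b % 8 = 2
    · obtain ⟨b, hb, hb'⟩ := h
      refine ⟨A.filter fun a => a % 8 = 2, fun x hx y hy => hA x (mem_filter.1 hx).1 y
        (mem_filter.1 hy).1, fun x hx => (mem_filter.1 hx).2, fun x hx => hN x (mem_filter.1 hx).1,
        card_le_card fun x hx => ?_⟩
      obtain ⟨hx, hx'⟩ := mem_filter.1 hx
      refine mem_filter.2 ⟨hx, by_contra fun e => ?_⟩
      have := hm x hx b hb (by omega)
      omega
    · push Not at h
      set B := A.filter fun a => a % 8 = 2 ∨ a % 32 = 8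
      have hB' : ∀ x ∈ B, x ∈ A ∧ x % 32 = 8 := fun x hx =>
        ⟨(mem_filter.1 hx).1, (mem_filter.1 hx).2.resolve_left (h x (mem_filter.1 hx).1)⟩
      obtain ⟨h4, h5⟩ := scale B (fun x hx y hy => hA x (hB' x hx).1 y (hB' y hy).1)
        2 (by norm_num) fun x hx => by have := (hB' x hx).2; omega
      refine ⟨_, h5, fun x hx => ?_, fun x hx => ?_, h4.ge⟩ <;>
      · obtain ⟨y, hy, rfl⟩ := mem_image.1 hx
        have := (hB' y hy).2; have := hN y (hB' y hy).1; omega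
  have hsum : #A ≤ #C + 8 := by
    have : A ⊆ (A.filter fun a => a % 8 = 2 ∨ a % 32 = 8) ∪ ((A.filter fun a => a % 2 = 1) ∪
        ((A.filter fun a => a % 8 = 6) ∪ ((A.filter fun a => a % 8 = 4) ∪
        (A.filter fun a => a % 32 = 24)))) := fun x hx => by
      have := hB x hx
      simp only [mem_union, mem_filter, hx, true_and]
      omega
    have h1 := (card_le_card this).trans ((card_union_le _ _).trans (add_le_add hc
      ((card_union_le _ _).trans (add_le_add t1 ((card_union_le _ _).trans (add_le_add t2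
        ((card_union_le _ _).trans (add_le_add t3 t4))))))))
    omega
  rcases le_or_gt #A 9 with h | h
  · exact small h
  obtain ⟨D, hD, hDc⟩ := exists_subset_card_eq (show #A - 8 ≤ #C by omega)
  have h6 := class_two D (fun x hx y hy => hC x (hD hx) y (hD hy)) (fun x hx => h8 x (hD hx)) N
    (fun x hx => hCN x (hD hx)) (by omega)
  calc 128 ^ #A = 128 ^ #D * 128 ^ 8 := by rw [← pow_add]; congr 1; omega
    _ ≤ 2 ^ 21 * #D ^ 16 * N ^ 2 * 128 ^ 8 := by gcongr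
    _ = 2 ^ 77 * #D ^ 16 * N ^ 2 := by ring
    _ ≤ _ := Nat.mul_le_mul_right _ (Nat.mul_le_mul_left _ (Nat.pow_le_pow_left (by omega) _))

end Pool.Agent.MP_df75fe_nt
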