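import Mathlib.LinearAlgebra.FreeModule.PID
import Mathlib.Topology.Sheaves.Presheaf
import Mathlib.RingTheory.Flat.TorsionFree
import Mathlib.Data.Int.Star
import Mathlib.Algebra.Order.Ring.Star
import Mathlib.Tactic.Bound
import Mathlib.Algebra.Order.Group.Int.Sum
import Mathlib.Algebra.Ring.IsFormallyReal
import Mathlib.NumberTheory.Padics.PadicIntegers
import Mathlib.Combinatorics.SimpleGraph.Basic
import Mathlib.Data.Finset.Slice
import Mathlib.LinearAlgebra.Matrix.AbsoluteValue
import Mathlib.RingTheory.PiTensorProduct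
import Mathlib.RingTheory.PowerSeries.Derivative
import Mathlib.RingTheory.SimpleRing.Principal
import Mathlib.RingTheory.PowerSeries.Ideal
import Mathlib.RingTheory.TotallySplit
import Mathlib.RingTheory.Etale.Weakly
import Mathlib.RingTheory.Henselian
import Mathlib.RingTheory.PowerSeries.Catalan
import Mathlib.RingTheory.RegularLocalRing.Defs
import Mathlib.Tactic.Polynomial.Basic

-- ======== part 0: formerly Pool.Agent.MP_df75fe_nt.SubDR
section MrgPart0

/-! Determinant tools and an effective bound for Wronskians in the style of Dwork and Robba. -/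

set_option autoImplicit false
open Matrix Finset PowerSeries

namespace Pool.Agent.MP_df75fe_nt.Sub
noncomputable section

variable {R : Type*} [CommRing R]

lemma dvd_det_sum {κ : Type*} {D : ℕ} (A : Fin D → Finset κ) (L : Fin D → κ → R)
    (G : κ → Fin D → R) (x y : R) (h : ∀ τ : Fin D → κ, (∀ i, τ i ∈ A i) → Function.Injective τ →
      x ∣ y * ((∏ i, L i (τ i)) * det (of fun i j => G (τ i) j))) :
    x ∣ y * det (of fun i j => ∑ n ∈ A i, L i n * G n j) := by
  classical
  have e : (of fun i j => ∑ n ∈ A i, L i n * G n j) = fun i => ∑ n ∈ A i, L i n • G n := by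
    ext i j; simp
  rw [e]
  show x ∣ y * detRowAlternating (fun i => ∑ n ∈ A i, L i n • G n)
  rw [← AlternatingMap.coe_multilinearMap, MultilinearMap.map_sum_finset, mul_sum]
  refine dvd_sum fun τ hτ => ?_
  rw [MultilinearMap.map_smul_univ]
  by_cases hi : Function.Injective τ
  · exact h τ (Fintype.mem_piFinset.1 hτ) hi
  · obtain ⟨i, j, e, hij⟩ := Function.not_injective_iff.1 hi
    have : det (of fun i j => G (τ i) j) = 0 := det_zero_of_row_eq hij (by ext k; simp [e])
    rw [show (detRowAlternating : (Fin D → R) [⋀^Fin D]→ₗ[R] R).toMultilinearMap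
      (fun i => G (τ i)) = 0 from this]
    simp

lemma exists_minor [Nontrivial R] {κ : Type*} : ∀ {D : ℕ} (G : κ → Fin D → R),
    (∀ x : Fin D → R, (∀ n, ∑ j, G n j * x j = 0) → x = 0) →
    ∃ σ : Fin D → κ, det (of fun i j => G (σ i) j) ≠ 0
  | 0, _, _ => ⟨Fin.elim0, by simp⟩
  | D + 1, G, h => by
    obtain ⟨σ, hσ⟩ := exists_minor (fun n j => G n j.succ) fun x hx => by
      have := h (Fin.cons 0 x) fun n => by simpa [Fin.sum_univ_succ] using hx n
      ext j; simpa using congrFun this j.succ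
    by_contra hc
    push Not at hc
    have := h (fun j => (-1) ^ (j : ℕ) * det (of fun i l => G (σ i) (j.succAbove l))) fun n => by
      rw [← hc (Fin.cons n σ), det_succ_row_zero]
      refine sum_congr rfl fun j _ => ?_
      rw [mul_left_comm, mul_assoc]
      rfl
    exact hσ (by simpa using congrFun this 0)

/-- the minor of the coefficient matrix of a family of series on the rows `σ` -/
def mn {D : ℕ} (f : Fin D → R⟦X⟧) (σ : Fin D → ℕ) : R := det (of fun i j => coeff (σ i) (f j))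

lemma dvd_mn_mul {D : ℕ} (ψ : R⟦X⟧) (f : Fin D → R⟦X⟧) (σ : Fin D → ℕ) (x y : R)
    (h : ∀ τ : Fin D → ℕ, (∀ i, τ i ≤ σ i) → Function.Injective τ → x ∣ y * mn f τ) :
    x ∣ y * mn (fun j => ψ * f j) σ := by
  have e : mn (fun j => ψ * f j) σ = det (of fun i j => ∑ n ∈ range (σ i + 1),
      coeff (σ i - n) ψ * coeff n (f j)) := by
    unfold mn
    congr 1
    ext i j
    simp only [of_apply]
    rw [mul_comm, coeff_mul, Nat.sum_antidiagonal_eq_sum_range_succ
      (fun a b => coeff a (f j) * coeff b ψ)]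
    exact sum_congr rfl fun n _ => mul_comm _ _
  rw [e]
  refine dvd_det_sum _ _ (fun n j => coeff n (f j)) x y fun τ hτ hi => ?_
  rw [mul_left_comm]
  exact (h τ (fun i => Nat.lt_succ_iff.1 (mem_range.1 (hτ i))) hi).mul_left _

lemma eq_val {D : ℕ} {τ : Fin D → ℕ} (h : ∀ i, τ i ≤ i) (hi : Function.Injective τ) :
    τ = Fin.val := by
  have : ∀ n, ∀ i : Fin D, (i : ℕ) = n → τ i = n := fun n => by
    induction n using Nat.strong_induction_on with | _ n ih => ?_
    intro i e
    rcases (h i).eq_or_lt with h1 | h1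
    · omega
    · have := hi (ih (τ i) (e ▸ h1) ⟨τ i, h1.trans i.2⟩ rfl)
      rw [Fin.ext_iff] at this
      simp only at this; omega
  exact funext fun i => this _ i rfl

lemma mn_deriv {D : ℕ} (g : Fin D → R⟦X⟧) (τ : Fin D → ℕ) :
    mn (fun j => derivative R (g j)) τ = (∏ i, ((τ i + 1 : ℕ) : R)) * mn g fun i => τ i + 1 := by
  unfold mn
  rw [← det_mul_column]
  congr 1
  ext i j
  simp [coeff_derivative, mul_comm]

theorem dr (T : Set R⟦X⟧) (hd : ∀ φ ∈ T, derivative R φ ∈ T)
    (hu : ∀ φ ∈ T, ∃ (c : R) (ψ : R⟦X⟧), IsUnit ψ ∧ φ = ψ * C c ∧ ∀ φ' ∈ T, ∃ g ∈ T, φ' = ψ * g)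
    (s : ℕ) (β : R) (hβ : ∀ m < s, ((m + 1 : ℕ) : R) ∣ β) :
    ∀ (D : ℕ) (f : Fin D → R⟦X⟧), (∀ j, f j ∈ T) → ∀ σ : Fin D → ℕ, (∀ i, σ i ≤ s) →
      mn f Fin.val ∣ β ^ (D * D) * mn f σ
  | 0, f, _, σ, _ => by simp [mn]
  | D + 1, f, hf, σ, hσ => by
    obtain ⟨c, ψ, ⟨u, rfl⟩, e0, hg⟩ := hu _ (hf 0)
    choose g hgT hg using fun j : Fin D => hg _ (hf j.succ)
    set g' : Fin (D + 1) → R⟦X⟧ := Fin.cons (C c) g with hg'
    have ef : f = fun j => u * g' j := funext fun j => Fin.cases e0 hg j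
    have ih := dr T hd hu s β hβ D (fun j => derivative R (g j)) fun j => hd _ (hgT j)
    have h1 : mn f Fin.val ∣ mn g' Fin.val := by
      have := dvd_mn_mul ↑u⁻¹ f Fin.val (mn f Fin.val) 1 fun τ h hi => by simp [eq_val h hi]
      simpa [ef] using this
    have h2 : mn g' Fin.val = c * mn g fun i => i + 1 := by
      unfold mn
      rw [det_succ_column_zero, Fin.sum_univ_succ]
      simp [hg', coeff_C]
      rfl
    have h3 : mn f Fin.val ∣ c * mn (fun j => derivative R (g j)) Fin.val := by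
      rw [mn_deriv, mul_left_comm, ← h2]
      exact h1.mul_left _
    refine h3.trans ?_
    rw [ef]
    refine dvd_mn_mul _ _ _ _ _ fun τ hτ hi => ?_
    unfold mn
    rw [det_succ_column_zero (of fun i j => coeff (τ i) (g' j)), mul_sum]
    refine dvd_sum fun i _ => ?_
    by_cases h0 : τ i = 0
    · have h4 : ∀ l, ∃ m, τ (i.succAbove l) = m + 1 := fun l =>
        Nat.exists_eq_succ_of_ne_zero fun e => Fin.succAbove_ne i l (hi (e.trans h0.symm))
      choose τ' hτ' using h4
      have h5 : ∀ l, τ' l < s := fun l => by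
        have := hτ (i.succAbove l); have := hσ (i.succAbove l); have := hτ' l; omega
      have h6 := ih τ' fun l => (h5 l).le
      rw [mn_deriv g τ'] at h6
      obtain ⟨d, hd⟩ : ∏ l, ((τ' l + 1 : ℕ) : R) ∣ β ^ D := by
        simpa using prod_dvd_prod_of_dvd (s := univ) _ (fun _ => β) fun l _ => hβ _ (h5 l)
      have h7 : det ((of fun i j => coeff (τ i) (g' j)).submatrix i.succAbove Fin.succ) =
          mn g fun l => τ' l + 1 := by
        unfold mn
        congr 1
        ext l j
        simp [hg', hτ']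
      rw [h7]
      refine (mul_dvd_mul_left c h6).trans ⟨d * β ^ (D + 1) * (-1) ^ (i : ℕ), ?_⟩
      simp only [of_apply, h0, hg', Fin.cons_zero, coeff_zero_C]
      rw [show (D + 1) * (D + 1) = D * D + D + (D + 1) by ring, pow_add, pow_add, hd]
      ring
    · simp [hg', coeff_C, h0]

end
end Pool.Agent.MP_df75fe_nt.Sub

end MrgPart0

-- ======== part 1: formerly Pool.Agent.MP_df75fe_nt.SubGen
section MrgPart1

/-! The Taylor map at a generic point and the resulting bound for Wronskians of power series. -/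

set_option autoImplicit false
open Matrix Finset PowerSeries

namespace Pool.Agent.MP_df75fe_nt.Sub
noncomputable section

variable {R : Type*} [CommRing R]

/-- divided derivatives of a power series -/
def hs (l : ℕ) : R⟦X⟧ →ₗ[R] R⟦X⟧ where
  toFun f := mk fun n => ((n + l).choose l : R) * coeff (n + l) f
  map_add' f g := by ext n; simp [mul_add]
  map_smul' c f := by ext n; simp [mul_left_comm]

lemma coeff_hs (l n : ℕ) (f : R⟦X⟧) :
    coeff n (hs l f) = ((n + l).choose l : R) * coeff (n + l) f := by simp [hs]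

lemma hs_zero (f : R⟦X⟧) : hs 0 f = f := by ext n; simp [coeff_hs]

lemma hs_succ (l : ℕ) (f : R⟦X⟧) : hs (l + 1) f * (l + 1) = hs l (derivative R f) := by
  ext n
  have := congrArg (Nat.cast : ℕ → R) (Nat.add_one_mul_choose_eq (n + l) l)
  rw [show ((l : R⟦X⟧) + 1) = C ((l : R) + 1) by simp, coeff_mul_C, coeff_hs, coeff_hs,
    coeff_derivative, ← add_assoc]
  push_cast at this ⊢
  linear_combination (-coeff (n + l + 1) f) * this

lemma hs_fact (l : ℕ) : ∀ f : R⟦X⟧, (l.factorial : R) • hs l f = (derivative R)^[l] f := by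
  induction l with
  | zero => simp [hs_zero]
  | succ l ih =>
    intro f
    rw [Function.iterate_succ_apply, ← ih, ← hs_succ, smul_eq_C_mul, smul_eq_C_mul,
      Nat.factorial_succ]
    simp only [Nat.cast_mul, map_mul, map_natCast, Nat.cast_add, Nat.cast_one, map_add, map_one]
    ring

/-- the expansion of `f (z + s)` in powers of `s` -/
def tay (f : R⟦X⟧) : R⟦X⟧⟦X⟧ := mk fun l => hs l f

lemma tay_deriv (f : R⟦X⟧) : derivative _ (tay f) = tay (derivative R f) := by
  ext l : 1
  simp [coeff_derivative, tay, hs_succ]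

lemma tay_add (f g : R⟦X⟧) : tay (f + g) = tay f + tay g := by ext l : 1; simp [tay]

lemma tay_sub (f g : R⟦X⟧) : tay (f - g) = tay f - tay g := by ext l : 1; simp [tay]

lemma tay_C_mul (c : R) (f : R⟦X⟧) : tay (C c * f) = tay f * C (C c) := by
  ext l : 1
  rw [← smul_eq_C_mul]
  simp [tay, mul_comm, ← smul_eq_C_mul]

lemma d_mul (f g : R⟦X⟧) : derivative R (f * g) = f * derivative R g + g * derivative R f := by
  rw [Derivation.leibniz, smul_eq_mul, smul_eq_mul]

lemma tay_const (f : R⟦X⟧) : constantCoeff (tay f) = f := by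
  rw [← coeff_zero_eq_constantCoeff_apply, tay, coeff_mk, hs_zero]

lemma tay_mul [IsDomain R] [CharZero R] (f g : R⟦X⟧) : tay (f * g) = tay f * tay g := by
  ext l : 1
  induction l generalizing f g with
  | zero => simp [tay_const]
  | succ l ih =>
    have h : ((l : R⟦X⟧) + 1) ≠ 0 := by
      rw [show ((l : R⟦X⟧) + 1) = C ((l + 1 : ℕ) : R) by simp]
      exact fun h => Nat.cast_ne_zero.2 l.succ_ne_zero (by simpa using congrArg constantCoeff h)
    refine mul_right_cancel₀ h ?_
    rw [← coeff_derivative, ← coeff_derivative, tay_deriv, d_mul, d_mul, tay_add, tay_deriv,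
      tay_deriv, map_add, map_add, ih, ih]

lemma C_dvd_iff {c : R} {f : R⟦X⟧} : C c ∣ f ↔ ∀ n, c ∣ coeff n f := by
  refine ⟨fun ⟨g, e⟩ n => ⟨coeff n g, by simp [e]⟩, fun h => ?_⟩
  choose g hg using h
  exact ⟨mk g, by ext n; simp [hg]⟩

lemma prime_C {π : R} (hπ : Prime π) : Prime (C π : R⟦X⟧) := by
  have := (Ideal.span_singleton_prime hπ.ne_zero).2 hπ
  have h : ∀ f : R⟦X⟧, C π ∣ f ↔ map (Ideal.Quotient.mk (Ideal.span {π})) f = 0 := fun f => by
    simp [C_dvd_iff, PowerSeries.ext_iff, Ideal.Quotient.eq_zero_iff_mem, Ideal.mem_span_singleton]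
  refine ⟨fun e => hπ.ne_zero (by simpa using congrArg constantCoeff e), fun e => hπ.not_isUnit
    (by simpa using e.map constantCoeff), fun a b e => ?_⟩
  simpa only [h, map_mul, mul_eq_zero] using e

/-- generalized Wronskians -/
def wr {D : ℕ} (f : Fin D → R⟦X⟧) (σ : Fin D → ℕ) : R⟦X⟧ := det (of fun i j => hs (σ i) (f j))

lemma wr_const {D : ℕ} (f : Fin D → R⟦X⟧) (σ : Fin D → ℕ) : constantCoeff (wr f σ) = mn f σ := by
  unfold wr mn
  rw [RingHom.map_det]
  congr 1
  ext i j
  simp [← coeff_zero_eq_constantCoeff_apply, coeff_hs]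

theorem wr_dvd [IsDomain R] [CharZero R] [IsNoetherianRing R] {π : R} (hπ : Prime π) {D : ℕ}
    (f : Fin D → R⟦X⟧) (σ : Fin D → ℕ) (s : ℕ) (hσ : ∀ i, σ i ≤ s) (β : R)
    (hβ : ∀ m < s, ((m + 1 : ℕ) : R) ∣ β) :
    ∃ v : R⟦X⟧, ¬ C π ∣ v ∧ wr f Fin.val ∣ v * (C β ^ (D * D) * wr f σ) := by
  have hp := prime_C hπ
  have := (Ideal.span_singleton_prime hp.ne_zero).2 hp
  set S := Localization.AtPrime (Ideal.span {(C π : R⟦X⟧)})
  set ι := algebraMap R⟦X⟧ S
  set t : R⟦X⟧ → S⟦X⟧ := fun a => map ι (tay a) with ht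
  have tm : ∀ a b, t (a * b) = t a * t b := fun a b => by simp [ht, tay_mul]
  have td : ∀ a, derivative S (t a) = t (derivative R a) := fun a => by
    ext n
    simp only [ht, ← tay_deriv, coeff_map]
    rw [coeff_derivative, coeff_derivative, coeff_map]
    simp
  have tu : ∀ a, ¬ C π ∣ a → IsUnit (t a) := fun a ha => by
    rw [isUnit_iff_constantCoeff, ← coeff_zero_eq_constantCoeff_apply, ht, coeff_map, tay,
      coeff_mk, hs_zero]
    exact (IsLocalization.AtPrime.isUnit_to_map_iff S _ a).2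
      fun h => ha (Ideal.mem_span_singleton.1 h)
  have nm : ∀ {a b}, ¬ C π ∣ a → ¬ C π ∣ b → ¬ C π ∣ a * b := fun ha hb h =>
    (hp.dvd_or_dvd h).elim ha hb
  have t1 : t 1 = 1 := (tu 1 hp.not_dvd_one).mul_left_cancel (by rw [← tm, mul_one, mul_one])
  have key := dr {φ | ∃ a b, ¬ C π ∣ b ∧ φ * t b = t a} (fun φ ⟨a, b, hb, e⟩ =>
      ⟨derivative R a * b - a * derivative R b, b * b, nm hb hb, by
        have e2 := congrArg (derivative S) e
        rw [d_mul, td, td] at e2
        have e3 : t (derivative R a * b - a * derivative R b) =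
            t (derivative R a * b) - t (a * derivative R b) := by simp [ht, tay_sub]
        rw [e3, tm, tm, tm]
        linear_combination t b * e2 - t (derivative R b) * e⟩)
    (fun φ ⟨a, b, hb, e⟩ => by
      obtain ⟨w, hw⟩ := (tu b hb).exists_right_inv
      by_cases ha : a = 0
      · refine ⟨0, 1, isUnit_one, ?_, fun φ' h => ⟨φ', h, by simp⟩⟩
        have : t a = 0 := by ext n; simp [ht, ha, tay]
        rw [map_zero]
        linear_combination w * e + w * this - φ * hw
      · obtain ⟨n, a1, h1, rfl⟩ := WfDvdMonoid.max_power_factor ha hp.irreducible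
        obtain ⟨w1, hw1⟩ := (tu a1 h1).exists_right_inv
        refine ⟨ι (C (π ^ n)), t a1 * w, (tu a1 h1).mul (IsUnit.of_mul_eq_one_right _ hw), ?_,
          fun φ' ⟨a', b', hb', e'⟩ => ⟨φ' * w1 * t b, ⟨a' * b, b' * a1, nm hb' h1, ?_⟩, ?_⟩⟩
        · have : t (C π ^ n * a1) = t a1 * C (ι (C (π ^ n))) := by
            simp only [ht]; rw [← map_pow, tay_C_mul, map_mul, map_C]
          linear_combination w * e + w * this - φ * hw
        · rw [tm, tm]
          linear_combination (t b * w1 * t a1) * e' + (t b * t a') * hw1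
        · linear_combination (-φ') * hw1 - (φ' * t a1 * w1) * hw)
    s (ι (C β)) (fun m hm => by simpa using map_dvd ι (map_dvd C (hβ m hm))) D (fun j => t (f j))
    (fun j => ⟨f j, 1, hp.not_dvd_one, by rw [t1, mul_one]⟩) σ hσ
  have e : ∀ τ, mn (fun j => t (f j)) τ = ι (wr f τ) := fun τ => by
    unfold mn wr
    rw [RingHom.map_det]
    congr 1
    ext i j
    simp [ht, tay]
  rw [e, e, ← map_pow, ← map_mul] at key
  obtain ⟨z, hz⟩ := key
  obtain ⟨⟨w, v⟩, hv⟩ := IsLocalization.surj (Ideal.span {(C π : R⟦X⟧)}).primeCompl z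
  refine ⟨v, fun h => v.2 (Ideal.mem_span_singleton.2 h), w, IsLocalization.injective S
    (Ideal.primeCompl_le_nonZeroDivisors (Ideal.span {(C π : R⟦X⟧)})) ?_⟩
  rw [map_mul ι, map_mul ι _ w, hz]
  linear_combination ι (wr f Fin.val) * hv

end
end Pool.Agent.MP_df75fe_nt.Sub

end MrgPart1

-- ======== part 2: formerly Pool.Agent.MP_df75fe_nt.SubWr
section MrgPart2

/-! Wronskians of square roots of polynomials, changes of basis, zeros of power series. -/

set_option autoImplicit false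
open Matrix Finset PowerSeries

namespace Pool.Agent.MP_df75fe_nt.Sub
noncomputable section

variable {R : Type*} [CommRing R]

lemma alg (h : R⟦X⟧) (P : Polynomial R) (hP : h ^ 2 = P) (hd : P.natDegree ≤ 2)
    (l : ℕ) : ∃ A : Polynomial R, A.natDegree ≤ 2 * l ∧
      (2 * (P : R⟦X⟧)) ^ l * (derivative R)^[l] h = A * h := by
  have h1 : 2 * (P : R⟦X⟧) * derivative R h = derivative R P * h := by
    rw [← hP, sq, d_mul]; ring
  induction l with
  | zero => exact ⟨1, by simp, by simp⟩
  | succ l ih =>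
    obtain ⟨A, hA, e⟩ := ih
    refine ⟨2 * P * A.derivative + (1 - 2 * l) * P.derivative * A, ?_, ?_⟩
    · have := Polynomial.natDegree_derivative_le A
      have := Polynomial.natDegree_derivative_le P
      compute_degree
      omega
    · have e2 := congrArg (derivative R) e
      have e3 : 2 * (P : R⟦X⟧) * derivative R ((2 * (P : R⟦X⟧)) ^ l) =
          2 * l * derivative R P * (2 * (P : R⟦X⟧)) ^ l := by
        have e4 : derivative R (2 * (P : R⟦X⟧)) = 2 * derivative R P := by
          rw [two_mul, map_add, two_mul]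
        rw [derivative_pow, e4]
        cases l with
        | zero => simp
        | succ l => simp only [Nat.add_sub_cancel]; ring
      rw [d_mul, d_mul] at e2
      rw [Function.iterate_succ_apply']
      have c2 : ((2 : Polynomial R) : R⟦X⟧) = 2 := map_ofNat Polynomial.coeToPowerSeries.ringHom 2
      have cl : ((l : Polynomial R) : R⟦X⟧) = l := map_natCast Polynomial.coeToPowerSeries.ringHom l
      simp only [Polynomial.coe_add, Polynomial.coe_mul, Polynomial.coe_sub, Polynomial.coe_one,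
        c2, cl, ← derivative_coe]
      linear_combination 2 * (P : R⟦X⟧) * e2 - (derivative R)^[l] h * e3 -
        2 * l * derivative R P * e + A * h1

lemma wr_poly [IsDomain R] [CharZero R] (h2 : IsUnit (2 : R)) {D : ℕ} (h : Fin D → R⟦X⟧)
    (hu : ∀ i, IsUnit (h i)) (P : Fin D → Polynomial R) (hP : ∀ i, h i ^ 2 = P i)
    (hd : ∀ i, (P i).natDegree ≤ 2) :
    ∃ u, IsUnit u ∧ ∀ n, 2 * D * D < n → coeff n (u * wr h Fin.val) = 0 := by
  choose A hA eA using fun i l => alg (h i) (P i) (hP i) (hd i) l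
  choose w hw using fun i => (hu i).exists_right_inv
  have h2' : IsUnit (2 : R⟦X⟧) := by simpa [map_ofNat] using h2.map (C (R := R))
  refine ⟨∏ j, (2 * (P j : R⟦X⟧)) ^ D * w j, IsUnit.prod_univ_iff.2 fun j =>
    ((h2'.mul (hP j ▸ (hu j).pow 2)).pow D).mul (IsUnit.of_mul_eq_one_right _ (hw j)), fun n hn => ?_⟩
  set B : Matrix (Fin D) (Fin D) (Polynomial R) := of fun l j => (2 * P j) ^ (D - l) * A j l
  have e : C (∏ l : Fin D, ((l : ℕ).factorial : R)) * ((∏ j, (2 * (P j : R⟦X⟧)) ^ D * w j) *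
      wr h Fin.val) = (B.det : R⟦X⟧) := by
    rw [wr, ← det_mul_row, map_prod, ← det_mul_column,
      ← Polynomial.coeToPowerSeries.ringHom_apply, RingHom.map_det]
    congr 1
    refine Matrix.ext fun l j => ?_
    have e1 := hs_fact l (h j)
    have e2 : (2 * (P j : R⟦X⟧)) ^ D = (2 * (P j : R⟦X⟧)) ^ (D - l) * (2 * (P j : R⟦X⟧)) ^ (l : ℕ) := by
      rw [← pow_add, Nat.sub_add_cancel l.2.le]
    rw [smul_eq_C_mul] at e1
    simp only [of_apply, RingHom.mapMatrix_apply, map_apply, B, map_mul, map_pow, map_ofNat,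
      Polynomial.coeToPowerSeries.ringHom_apply]
    rw [e2]
    linear_combination (2 * (P j : R⟦X⟧)) ^ (D - l) * ((2 * (P j : R⟦X⟧)) ^ (l : ℕ) * w j * e1 +
      w j * eA j l + A j l * hw j)
  have hB : B.det.natDegree ≤ 2 * D * D := by
    rw [det_apply']
    refine Polynomial.natDegree_sum_le_of_forall_le _ _ fun σ _ => ?_
    refine Polynomial.natDegree_mul_le.trans ?_
    rw [Polynomial.natDegree_intCast, zero_add]
    refine (Polynomial.natDegree_prod_le _ _).trans ((sum_le_card_nsmul _ _ (2 * D)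
      fun j _ => ?_).trans (by simp [mul_comm]))
    have := hA j (σ j); have := hd j; have := (σ j).2
    have h3 : (2 * P j).natDegree ≤ 2 := by compute_degree!
    refine Polynomial.natDegree_mul_le.trans ((add_le_add (Polynomial.natDegree_pow_le.trans
      (Nat.mul_le_mul_left _ h3)) (hA j (σ j))).trans ?_)
    omega
  have e2 := congrArg (coeff n) e
  rw [coeff_C_mul, Polynomial.coeff_coe, Polynomial.coeff_eq_zero_of_natDegree_lt (hB.trans_lt hn)]
    at e2
  exact (mul_eq_zero.1 e2).resolve_left (prod_ne_zero_iff.2 fun l _ =>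
    Nat.cast_ne_zero.2 (Nat.factorial_ne_zero _))

/-- change of basis -/
def cb {D : ℕ} (f : Fin D → R⟦X⟧) (Λ : Matrix (Fin D) (Fin D) R) (j : Fin D) : R⟦X⟧ :=
  ∑ i, Λ i j • f i

lemma wr_cb {D : ℕ} (f : Fin D → R⟦X⟧) (Λ : Matrix (Fin D) (Fin D) R) (σ : Fin D → ℕ) :
    wr (cb f Λ) σ = wr f σ * C Λ.det := by
  rw [wr, wr, RingHom.map_det, ← det_mul]
  congr 1
  ext i j : 2
  simp [cb, mul_apply, mul_comm, map_sum, ← smul_eq_C_mul]

lemma prod_dvd_det {D : ℕ} (v : Fin D → R) (A : Matrix (Fin D) (Fin D) R)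
    (h : ∀ i j, v j ∣ A i j) : ∏ j, v j ∣ A.det := by
  choose B hB using h
  refine ⟨(of B).det, ?_⟩
  rw [← det_mul_row]
  congr 1
  ext i j
  exact hB i j

lemma exists_small [IsDomain R] [CharZero R] [IsNoetherianRing R] {π : R} (hπ : Prime π)
    {D τ : ℕ} (h : Fin D → R⟦X⟧)
    (hW : ∃ u, IsUnit u ∧ ∀ n, τ < n → coeff n (u * wr h Fin.val) = 0)
    (hi : ∀ x : Fin D → R, ∑ i, x i • h i = 0 → x = 0) :
    ∃ σ : Fin D → ℕ, (∀ i, σ i ≤ τ + D) ∧ mn h σ ≠ 0 := by
  obtain ⟨u, hu, hW⟩ := hW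
  have h0 : wr h Fin.val ≠ 0 := fun e => by
    obtain ⟨σ, hσ⟩ := exists_minor (fun n j => coeff n (h j)) fun x hx => hi x (by
      ext n; simpa [mul_comm] using hx n)
    obtain ⟨v, hv, hd⟩ := wr_dvd hπ h σ (univ.sup σ) (fun i => le_sup (mem_univ i))
      ((univ.sup σ).factorial) fun m hm => Nat.cast_dvd_cast (Nat.dvd_factorial m.succ_pos hm)
    rw [e, zero_dvd_iff, mul_eq_zero, mul_eq_zero] at hd
    rcases hd with rfl | hd | hd
    · exact hv (dvd_zero _)
    · have := congrArg constantCoeff (eq_zero_of_pow_eq_zero hd)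
      exact Nat.factorial_ne_zero _ (by simpa using this)
    · exact hσ (by rw [← mn, ← wr_const, hd, map_zero])
  obtain ⟨σ, hσ⟩ := exists_minor (fun (n : Fin (τ + D + 1)) j => coeff n (h j)) fun x hx => by
    ext j
    have h1 : X ^ (τ + 1) ∣ C (x j) * wr h Fin.val := by
      rw [wr, ← smul_eq_mul, ← det_updateCol_sum _ j fun i => C (x i)]
      have := prod_dvd_det (Pi.mulSingle j (X ^ (τ + 1))) ((of fun (l : Fin D) i =>
        hs l (h i)).updateCol j fun l => ∑ i, C (x i) • (of fun (l : Fin D) i => hs l (h i)) l i)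
        fun l i => ?_
      · rwa [Fintype.prod_pi_mulSingle'] at this
      rcases eq_or_ne i j with rfl | hij
      · rw [Pi.mulSingle_eq_same, updateCol_self, X_pow_dvd_iff]
        intro m hm
        have := hx ⟨m + l, by have := l.2; omega⟩
        simp only [of_apply, smul_eq_mul, map_sum, coeff_C_mul, coeff_hs]
        rw [← mul_zero ((m + l).choose l : R), ← this, mul_sum]
        exact sum_congr rfl fun _ _ => by ring
      · simp [hij]
    have h2 : C (x j) * (u * wr h Fin.val) = 0 := by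
      ext n
      rcases le_or_gt n τ with hn | hn
      · rw [mul_left_comm]
        exact X_pow_dvd_iff.1 (h1.mul_left u) n (by omega)
      · simp [hW n hn]
    have h3 := (mul_eq_zero.1 h2).resolve_right (mul_ne_zero hu.ne_zero h0)
    simpa using congrArg constantCoeff h3
  exact ⟨fun i => σ i, fun i => Nat.lt_succ_iff.1 (σ i).2, hσ⟩

lemma dvd_of_C_mul [IsDomain R] [IsDiscreteValuationRing R] {π : R} (hπ : Prime π) {x z : R}
    (hx : x ≠ 0) {f : R⟦X⟧} (h : X - C z ∣ C x * f) : X - C z ∣ f := by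
  obtain ⟨n, u, rfl⟩ := IsDiscreteValuationRing.eq_unit_mul_pow_irreducible hx hπ.irreducible
  rw [map_mul, mul_assoc, (u.isUnit.map C).dvd_mul_left] at h
  clear hx
  induction n with
  | zero => simpa using h
  | succ n ih =>
    obtain ⟨g, hg⟩ := h
    rw [pow_succ', map_mul, mul_assoc] at hg
    obtain ⟨g', rfl⟩ := ((prime_C hπ).dvd_or_dvd ⟨_, hg.symm⟩).resolve_left fun h =>
      hπ.not_dvd_one (by simpa [coeff_C] using C_dvd_iff.1 h 1)
    exact ih ⟨g', mul_left_cancel₀ (prime_C hπ).ne_zero (by rw [hg]; ring)⟩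

lemma prod_dvd_of [IsDomain R] [IsDiscreteValuationRing R] {π : R} (hπ : Prime π) {κ : Type*}
    (z : κ → R) (hz : Function.Injective z) (s : Finset κ) :
    ∀ f : R⟦X⟧, (∀ b ∈ s, X - C (z b) ∣ f) → ∏ b ∈ s, (X - C (z b)) ∣ f := by
  classical
  induction s using Finset.induction_on with
  | empty => simp
  | insert a s ha ih =>
    intro f hf
    obtain ⟨g, rfl⟩ := hf a (mem_insert_self _ _)
    rw [prod_insert ha]
    refine mul_dvd_mul_left _ (ih g fun b hb => dvd_of_C_mul hπ (x := z b - z a)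
      (sub_ne_zero.2 fun e => ha (hz e ▸ hb)) ?_)
    have := dvd_sub (hf b (mem_insert_of_mem hb)) (dvd_mul_right (X - C (z b)) g)
    rwa [show (X - C (z a)) * g - (X - C (z b)) * g = C (z b - z a) * g by
      rw [map_sub]; ring] at this

end
end Pool.Agent.MP_df75fe_nt.Sub

end MrgPart2

-- ======== part 3: formerly Pool.Agent.MP_df75fe_nt.SubRank
section MrgPart3

/-! A lower bound for the rank of an evaluation matrix. -/

set_option autoImplicit false
open Matrix Finset PowerSeries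

namespace Pool.Agent.MP_df75fe_nt.Sub
noncomputable section

variable {R : Type*} [CommRing R] [IsDomain R]

lemma snf [IsPrincipalIdealRing R] {M D : ℕ} (E : Matrix (Fin M) (Fin D) R) :
    ∃ (Ξ : Matrix (Fin D) (Fin D) R) (J : Finset (Fin D)), IsUnit Ξ.det ∧
      (∀ j ∈ J, ∀ b, (E * Ξ) b j = 0) ∧
      ∀ x : Fin D → R, (∀ j ∈ J, x j = 0) → (E * Ξ) *ᵥ x = 0 → x = 0 := by
  obtain ⟨n, S⟩ := (LinearMap.ker E.mulVecLin).smithNormalForm (Pi.basisFun R (Fin D))
  refine ⟨(of S.bM)ᵀ, univ.map S.f, ?_, fun j hj b => ?_, fun x hx h => ?_⟩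
  · rw [det_transpose, ← Pi.basisFun_det_apply]
    exact Module.Basis.isUnit_det _ _
  · obtain ⟨i, -, rfl⟩ := mem_map.1 hj
    have h1 := (S.bN i).2
    rw [LinearMap.mem_ker, S.snf, map_smul, smul_eq_zero] at h1
    refine congrFun (h1.resolve_left fun e => S.bN.ne_zero i (Subtype.ext ?_)) b
    simp [S.snf, e]
  · have e : (of S.bM)ᵀ *ᵥ x = ∑ j, x j • S.bM j := by
      ext i; simp [mulVec, dotProduct, mul_comm]
    have h1 : ∑ j, x j • S.bM j ∈ LinearMap.ker E.mulVecLin := by
      rw [LinearMap.mem_ker, ← e, mulVecLin_apply, mulVec_mulVec, h]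
    ext j
    by_cases hj : j ∈ Set.range S.f
    · obtain ⟨i, rfl⟩ := hj
      exact hx _ (mem_map_of_mem _ (mem_univ _))
    · have := S.repr_eq_zero_of_notMem_range ⟨_, h1⟩ hj
      simpa [Finsupp.single_apply] using this

lemma minor_of {M D : ℕ} (E : Matrix (Fin M) (Fin D) R) (Λ : Matrix (Fin D) (Fin D) R)
    (J : Finset (Fin D)) (h : ∀ x : Fin D → R, (∀ j ∈ J, x j = 0) → (E * Λ) *ᵥ x = 0 → x = 0) :
    ∃ (a : Fin #Jᶜ → Fin M) (c : Fin #Jᶜ → Fin D), det (E.submatrix a c) ≠ 0 := by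
  set κ := Jᶜ.orderEmbOfFin rfl
  obtain ⟨a, ha⟩ := exists_minor (fun b l => (E * Λ) b (κ l)) fun x hx => by
    have h1 := h (∑ l, Pi.single (κ l) (x l)) (fun j hj => by
      rw [Finset.sum_apply]
      exact sum_eq_zero fun l _ => Pi.single_eq_of_ne
        (fun e => mem_compl.1 (orderEmbOfFin_mem Jᶜ rfl l) (by rw [← e]; exact hj)) _) (by
      ext b
      rw [mulVec_sum, Finset.sum_apply, Pi.zero_apply, ← hx b]
      exact sum_congr rfl fun l _ => by simp [mul_comm])
    ext l
    simpa [Finset.sum_apply, Pi.single_apply] using congrFun h1 (κ l)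
  refine ⟨a, by_contra fun hc => ha ?_⟩
  push Not at hc
  have := dvd_det_sum (fun _ => univ) (fun l c => Λ c (κ l)) (fun c i => E (a i) c) 0 1
    fun τ _ _ => by
      rw [show det (of fun l i => E (a i) (τ l)) = 0 from (det_transpose _).symm.trans (hc τ)]
      simp
  rw [zero_dvd_iff, one_mul, ← det_transpose] at this
  rw [← this]
  congr 1
  ext i l
  simp [mul_apply, mul_comm]

lemma resc [IsDiscreteValuationRing R] {π : R} (hπ : Prime π) {q : R} (hq : q ≠ 0) {M : ℕ}
    (y : Fin M → R) (hy : Function.Injective y) (f : R⟦X⟧) (hf : ∀ b, X - C (q * y b) ∣ f)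
    {D l : ℕ} (hl : l ≤ D) : C (q ^ (M - D)) ∣ rescale q (hs l f) := by
  have h1 := map_dvd (rescale q) (prod_dvd_of hπ (fun b => q * y b)
    (fun a b e => hy (mul_left_cancel₀ hq e)) univ f fun b _ => hf b)
  have h2 : C (q ^ M) ∣ rescale q f := by
    refine Dvd.dvd.trans ?_ h1
    have := prod_dvd_prod_of_dvd (s := univ) (fun _ : Fin M => (C q : R⟦X⟧))
      (fun b => rescale q (X - C (q * y b))) fun b _ => ⟨X - C (y b), by
        have : rescale q (C (q * y b)) = C (q * y b) := by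
          ext n; rw [coeff_rescale, coeff_C]; split_ifs with h <;> simp [h]
        rw [map_sub, this, rescale_X, map_mul]; ring⟩
    simpa using this
  rw [C_dvd_iff] at h2 ⊢
  intro n
  have h3 := h2 (n + l)
  rw [coeff_rescale, coeff_hs, mul_left_comm]
  refine Dvd.dvd.mul_left ?_ _
  rcases le_total M D with h | h
  · simp [Nat.sub_eq_zero_of_le h]
  · rw [← mul_dvd_mul_iff_left (pow_ne_zero l hq), ← pow_add, ← mul_assoc, ← pow_add, add_comm l n]
    rw [coeff_rescale] at h3
    exact (pow_dvd_pow _ (by omega)).trans h3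

theorem rank_bound [CharZero R] [IsDiscreteValuationRing R] {π : R} (hπ : Prime π)
    {D M τ s e j : ℕ} (h : Fin D → R⟦X⟧)
    (hW : ∃ u, IsUnit u ∧ ∀ n, τ < n → coeff n (u * wr h Fin.val) = 0)
    (hi : ∀ x : Fin D → R, ∑ i, x i • h i = 0 → x = 0) (hq : ∀ n i, π ^ n ∣ coeff n (h i))
    (hs' : ∀ σ : Fin D → ℕ, (∀ i, σ i ≤ τ + D) → mn h σ ≠ 0 → ∀ m, π ^ m ∣ mn h σ → m ≤ s)
    (he : ∀ m < s, ((m + 1 : ℕ) : R) ∣ π ^ e) (y : Fin M → R) (hy : Function.Injective y)
    (E : Matrix (Fin M) (Fin D) R) (hE : ∀ b i, X - C (π ^ j * y b) ∣ h i - C (E b i)) :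
    ∃ r n, r + n = D ∧ j * (n * (M - D) - τ) ≤ e * (D * D) ∧
      ∃ (a : Fin r → Fin M) (c : Fin r → Fin D), det (E.submatrix a c) ≠ 0 := by
  obtain ⟨σ1, h1, h1'⟩ := exists_small hπ h hW hi
  obtain ⟨u, hu, hW⟩ := hW
  obtain ⟨_, ⟨σ, rfl⟩, hmin⟩ := wellFounded_dvdNotUnit.has_min (Set.range (mn h)) ⟨_, σ1, rfl⟩
  have hΔ : ∀ σ', mn h σ ∣ mn h σ' := fun σ' => by
    rcases ValuationRing.dvd_total (mn h σ) (mn h σ') with hd | ⟨x, hx⟩
    · exact hd
    · by_cases h0 : mn h σ' = 0
      · simp [h0]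
      · by_cases hx' : IsUnit x
        · rw [hx]; exact hx'.mul_right_dvd.2 dvd_rfl
        · exact absurd ⟨h0, x, hx', hx⟩ (hmin _ ⟨σ', rfl⟩)
  have h0 : mn h σ ≠ 0 := fun e => h1' (zero_dvd_iff.1 (e ▸ hΔ σ1))
  set A : Matrix (Fin D) (Fin D) R := of fun i j => coeff (σ i) (h j) with hA
  have hσ : ∀ i, σ i ≤ s := fun i => hs' σ1 h1 h1' _ (((dvd_prod_of_mem _ (mem_univ i)).trans
    ((prod_dvd_det (fun i => π ^ σ i) Aᵀ fun i j => hq _ _).trans (by rw [det_transpose]; rfl))).trans
    (hΔ σ1))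
  obtain ⟨Ξ, J, hΞ, hJ, hJ'⟩ := snf (E * A.adjugate)
  rw [Matrix.mul_assoc] at hJ hJ'
  refine ⟨#Jᶜ, #J, by simp, ?_, minor_of E _ J hJ'⟩
  have hc : ∀ n k, coeff n (cb h (A.adjugate * Ξ) k) =
      (((fun i => coeff n (h i)) ᵥ* A.adjugate) ᵥ* Ξ) k := fun n k => by
    rw [vecMul_vecMul]; simp [cb, vecMul, dotProduct, mul_comm]
  have hd : ∀ k, C (mn h σ) ∣ cb h (A.adjugate * Ξ) k := fun k => C_dvd_iff.2 fun n => by
    rw [hc, vecMul, dotProduct]
    refine dvd_sum fun i _ => Dvd.dvd.mul_right ?_ _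
    rw [← mulVec_transpose, adjugate_transpose, ← cramer_eq_adjugate_mulVec, cramer_transpose_apply]
    refine (hΔ (Function.update σ i n)).trans (dvd_of_eq (congrArg det ?_))
    ext a b
    rcases eq_or_ne a i with rfl | hai
    · simp
    · simp [hai, hA]
  choose f hf using hd
  have hf1 : mn f σ = Ξ.det := by
    unfold mn
    congr 1
    ext i k
    have := hc (σ i) k
    rw [hf, coeff_C_mul, show (fun l => coeff (σ i) (h l)) ᵥ* A.adjugate = (A * A.adjugate) i from
      rfl, mul_adjugate] at this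
    refine mul_left_cancel₀ h0 (this.trans ?_)
    simp [vecMul, dotProduct, one_apply, mn, hA]
  have hf2 : ∀ n, τ < n → coeff n (u * wr f Fin.val) = 0 := fun n hn => by
    have e1 := wr_cb h (A.adjugate * Ξ) Fin.val
    rw [show cb h (A.adjugate * Ξ) = cb f (diagonal fun _ => mn h σ) from funext fun k => by
      rw [hf]; simp [cb, diagonal_apply, smul_eq_C_mul], wr_cb] at e1
    have e2 := congrArg (fun w => coeff n (u * w)) e1
    simp only [← mul_assoc, coeff_mul_C, hW n hn, zero_mul, mul_eq_zero] at e2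
    exact e2.resolve_right (by simp [h0])
  set q := π ^ j
  have hq0 : q ≠ 0 := pow_ne_zero _ hπ.ne_zero
  have hf3 : C (q ^ (#J * (M - D))) ∣ rescale q (wr f Fin.val) := by
    rw [wr, RingHom.map_det]
    have := prod_dvd_det (fun k => if k ∈ J then C (q ^ (M - D)) else 1)
      ((rescale q).mapMatrix (of fun (l : Fin D) k => hs l (f k))) fun l k => ?_
    · simpa [prod_ite, ← pow_mul, mul_comm] using this
    split_ifs with hk
    · refine resc hπ hq0 y hy _ (fun b => dvd_of_C_mul hπ h0 ?_) l.2.le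
      have e1 := hJ k hk b
      have := dvd_sum (s := univ) fun i _ => (hE b i).mul_left (C ((A.adjugate * Ξ) i k))
      rw [← hf]
      convert this using 1
      rw [mul_apply] at e1
      simp only [mul_sub, sum_sub_distrib, ← map_mul, ← map_sum, mul_comm _ (E b _), e1, map_zero,
        sub_zero, cb, smul_eq_C_mul]
    · exact one_dvd _
  have hf4 : C (q ^ (#J * (M - D) - τ)) ∣ wr f Fin.val := by
    rw [← hu.dvd_mul_left, C_dvd_iff]
    intro n
    rcases le_or_gt n τ with hn | hn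
    · have := C_dvd_iff.1 (hf3.mul_left (rescale q u)) n
      rw [← map_mul, coeff_rescale] at this
      rcases le_total (#J * (M - D)) τ with h' | h'
      · simp [Nat.sub_eq_zero_of_le h']
      · rw [← mul_dvd_mul_iff_left (pow_ne_zero n hq0), ← pow_add]
        exact (pow_dvd_pow _ (by omega)).trans this
    · simp [hf2 n hn]
  obtain ⟨v, hv, hv'⟩ := wr_dvd hπ f σ s hσ _ he
  have hp := prime_C hπ
  have h5 := hf4.trans hv'
  rw [← pow_mul, map_pow, map_pow, ← pow_mul] at h5
  have h6 := hp.pow_dvd_of_dvd_mul_right _ (fun hd => hπ.not_isUnit (isUnit_of_dvd_unit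
    (by simpa [wr_const, hf1] using C_dvd_iff.1 hd 0) hΞ)) (hp.pow_dvd_of_dvd_mul_left _ hv h5)
  exact (pow_dvd_pow_iff hp.ne_zero hp.not_isUnit).1 h6

end
end Pool.Agent.MP_df75fe_nt.Sub

end MrgPart3

-- ======== part 4: formerly Pool.Agent.MP_df75fe_nt.SubInd
section MrgPart4

/-! Linear independence of square roots of polynomials. -/

set_option autoImplicit false
open Finset Polynomial

namespace Pool.Agent.MP_df75fe_nt.Sub
noncomputable section

variable {K : Type*} [Field K] [CharZero K]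

lemma mult_eq {a b : K[X]} (ha : a ≠ 0) (hb : b ≠ 0) (h : a * derivative b = derivative a * b)
    (r : K) : rootMultiplicity r a = rootMultiplicity r b := by
  obtain ⟨a1, e1, h1⟩ := exists_eq_pow_rootMultiplicity_mul_and_not_dvd a ha r
  obtain ⟨b1, e2, h2⟩ := exists_eq_pow_rootMultiplicity_mul_and_not_dvd b hb r
  generalize rootMultiplicity r a = m at *
  generalize rootMultiplicity r b = n at *
  have hd : ∀ k : ℕ, (X - C r) * derivative ((X - C r) ^ k) = (k : K[X]) * (X - C r) ^ k :=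
      fun k => by
    cases k with
    | zero => simp
    | succ k => rw [derivative_X_sub_C_pow]; simp; ring
  have h3 : (X - C r) ^ m * (X - C r) ^ n * (((n : K[X]) - (m : K[X])) * a1 * b1 +
      (X - C r) * (a1 * derivative b1 - derivative a1 * b1)) = 0 := by
    rw [e1, e2, derivative_mul, derivative_mul] at h
    linear_combination (X - C r) * h - (X - C r) ^ m * a1 * b1 * hd n +
      (X - C r) ^ n * a1 * b1 * hd m
  have h4 := congrArg (eval r) ((mul_eq_zero.1 h3).resolve_left
    (mul_ne_zero (pow_ne_zero _ (X_sub_C_ne_zero r)) (pow_ne_zero _ (X_sub_C_ne_zero r))))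
  rw [dvd_iff_isRoot, IsRoot] at h1 h2
  have h5 : (n : K) - m = 0 := by simpa [h1, h2] using h4
  exact_mod_cast (sub_eq_zero.1 h5).symm

theorem indep {ι : Type*} (u : ι → PowerSeries K) (P : ι → K[X]) (hP : ∀ i, u i ^ 2 = P i)
    (h0 : ∀ i, P i ≠ 0)
    (hr : ∀ i j, i ≠ j → ∃ r, Odd (rootMultiplicity r (P i) + rootMultiplicity r (P j)))
    (T : Finset ι) : ∀ p : ι → K[X], ∑ i ∈ T, (p i : PowerSeries K) * u i = 0 → ∀ i ∈ T, p i = 0 := by
  classical
  have h1 : ∀ i, 2 * (P i : PowerSeries K) * PowerSeries.derivative K (u i) =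
      (derivative (P i) : K[X]) * u i := fun i => by
    rw [← PowerSeries.derivative_coe, ← hP, sq, d_mul]; ring
  have c2 : ((2 : K[X]) : PowerSeries K) = 2 := map_ofNat coeToPowerSeries.ringHom 2
  induction T using Finset.induction_on with
  | empty => simp
  | insert o T ho ih =>
    intro p hp
    rw [sum_insert ho] at hp
    have key : p o = 0 := by
      by_contra hc
      set a := p o ^ 2 * P o with ha
      have ha0 : a ≠ 0 := mul_ne_zero (pow_ne_zero _ hc) (h0 o)
      have h2 := ih (fun i => (∏ l ∈ T.erase i, P l) * (a * (2 * P i * derivative (p i) +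
        p i * derivative (P i)) - derivative a * P i * p i)) (by
          set v := (p o : PowerSeries K) * u o with hv
          have e1 : (a : PowerSeries K) = v * v := by
            rw [ha, Polynomial.coe_mul, Polynomial.coe_pow, ← hP, hv]; ring
          have e2 : ((derivative a : K[X]) : PowerSeries K) = 2 * v * PowerSeries.derivative K v := by
            rw [← PowerSeries.derivative_coe, e1, d_mul]; ring
          have e3 := congrArg (PowerSeries.derivative K) hp
          rw [map_add, map_sum, map_zero] at e3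
          have e4 : ∀ i ∈ T, (((∏ l ∈ T.erase i, P l) * (a * (2 * P i * derivative (p i) +
              p i * derivative (P i)) - derivative a * P i * p i) : K[X]) : PowerSeries K) * u i =
              (∏ l ∈ T, P l : K[X]) * (2 * a * PowerSeries.derivative K (p i * u i) -
                (derivative a : K[X]) * (p i * u i)) := fun i hi => by
            rw [← mul_prod_erase T P hi, d_mul, PowerSeries.derivative_coe]
            simp only [Polynomial.coe_mul, Polynomial.coe_sub, Polynomial.coe_add, c2]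
            linear_combination (-((∏ l ∈ T.erase i, P l : K[X]) : PowerSeries K) * a * p i) * h1 i
          rw [sum_congr rfl e4, ← mul_sum, sum_sub_distrib, ← mul_sum, ← mul_sum, e1, e2,
            eq_neg_of_add_eq_zero_right hp, eq_neg_of_add_eq_zero_right e3]
          ring)
      have h3 : ∀ i ∈ T, p i = 0 := fun i hi => by
        by_contra hi'
        have h4 := (mul_eq_zero.1 (h2 i hi)).resolve_left (prod_ne_zero_iff.2 fun l _ => h0 l)
        obtain ⟨r, hr⟩ := hr o i fun e => ho (e ▸ hi)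
        have h5 := mult_eq ha0 (mul_ne_zero (pow_ne_zero 2 hi') (h0 i)) (by
          rw [derivative_mul, derivative_sq, show (C 2 : K[X]) = 2 from rfl]
          linear_combination p i * h4) r
        rw [ha, rootMultiplicity_mul ha0, rootMultiplicity_mul (mul_ne_zero (pow_ne_zero 2 hi')
          (h0 i)), sq, sq, rootMultiplicity_mul (mul_ne_zero hc hc),
          rootMultiplicity_mul (mul_ne_zero hi' hi')] at h5
        obtain ⟨k, hk⟩ := hr
        omega
      rw [sum_eq_zero fun i hi => by simp [h3 i hi], add_zero, mul_eq_zero] at hp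
      rcases hp with hp | hp
      · exact hc (by simpa using hp)
      · exact h0 o (by simpa [hp] using (hP o).symm)
    intro i hi
    rcases mem_insert.1 hi with rfl | hi
    · exact key
    · exact ih p (by simpa [key] using hp) i hi

omit [CharZero K] in
lemma mult_lin [DecidableEq K] {a : K} (ha : a ≠ 0) (r : K) :
    rootMultiplicity r (1 - C a * X) = if r = a⁻¹ then 1 else 0 := by
  have e : (1 - C a * X : K[X]) = C (-a) * (X - C a⁻¹) := by
    rw [mul_sub, ← map_mul, neg_mul, mul_inv_cancel₀ ha]; simp; ring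
  rw [e, rootMultiplicity_mul (mul_ne_zero (by simpa using ha) (X_sub_C_ne_zero _)),
    rootMultiplicity_C, rootMultiplicity_X_sub_C, zero_add]

theorem indep_pair {k : ℕ} (a b : Fin k → K) (ha : Function.Injective a)
    (hb : Function.Injective b) (hab : ∀ i j, a i ≠ b j) (ha0 : ∀ i, a i ≠ 0) (hb0 : ∀ i, b i ≠ 0)
    (u : Fin k × Fin k → PowerSeries K)
    (hu : ∀ i, u i ^ 2 = ((1 - C (a i.1) * X) * (1 - C (b i.2) * X) : K[X]))
    (x : Fin k × Fin k → K) (hx : ∑ i, x i • u i = 0) : x = 0 := by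
  classical
  have h0 : ∀ c : K, (1 - C c * X : K[X]) ≠ 0 := fun c e => by simpa using congrArg (eval 0) e
  ext i
  refine C_eq_zero.1 (indep u _ hu (fun i => mul_ne_zero (h0 _) (h0 _)) (fun i j hij => ?_) univ
    (fun i => C (x i)) (by simpa [PowerSeries.smul_eq_C_mul] using hx) i (mem_univ _))
  simp only [rootMultiplicity_mul (mul_ne_zero (h0 _) (h0 _)), mult_lin (ha0 _), mult_lin (hb0 _)]
  by_cases h1 : i.1 = j.1
  · exact ⟨(b i.2)⁻¹, by simp [(hab _ _).symm, hb.eq_iff, show i.2 ≠ j.2 from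
      fun e => hij (Prod.ext h1 e)]⟩
  · exact ⟨(a i.1)⁻¹, by simp [hab, ha.eq_iff, h1]⟩

end
end Pool.Agent.MP_df75fe_nt.Sub

end MrgPart4

-- ======== part 5: formerly Pool.Agent.MP_df75fe_nt.SubSer
section MrgPart5

/-! The series of square roots, their values, and divisibility of evaluation minors. -/

set_option autoImplicit false
open Matrix Finset PowerSeries

namespace Pool.Agent.MP_df75fe_nt.Sub
noncomputable section

/-- the square root of `1 - 4 X` -/
def sr : ℤ⟦X⟧ := 1 - 2 * X * PowerSeries.map (Nat.castRingHom ℤ) catalanSeries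

lemma sr_sq : sr ^ 2 = 1 - 4 * X := by
  have h0 := congrArg (map (Nat.castRingHom ℤ)) catalanSeries_sq_mul_X_add_one
  rw [map_add, map_mul, map_pow, map_X, map_one] at h0
  rw [sr]
  linear_combination 4 * X * h0

lemma sr_zero : coeff 0 sr = 1 := by simp [sr]

lemma sr_le (n : ℕ) : |coeff n sr| ≤ 4 ^ n := by
  cases n with
  | zero => simp [sr]
  | succ n =>
    have h : catalan n ≤ 4 ^ n := by
      rw [catalan_eq_centralBinom_div]
      exact (Nat.div_le_self _ _).trans (Nat.centralBinom_le_four_pow n)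
    have e : coeff (n + 1) sr = -(2 * catalan n) := by
      rw [sr, mul_assoc, two_mul, map_sub, map_add, coeff_succ_X_mul, coeff_one]
      simp; ring
    have h' : (catalan n : ℤ) ≤ 4 ^ n := by exact_mod_cast h
    rw [e, abs_neg, abs_of_nonneg (by positivity), pow_succ]
    linarith [show (0 : ℤ) ≤ 4 ^ n by positivity]

/-- the square root of `(1 - 4 a X) (1 - 4 b X)` -/
def hz (a b : ℤ) : ℤ⟦X⟧ := rescale a sr * rescale b sr

lemma hz_le {a b Γ : ℤ} (ha : |a| ≤ Γ) (hb : |b| ≤ Γ) (n : ℕ) : |coeff n (hz a b)| ≤ (8 * Γ) ^ n := by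
  have h0 : 0 ≤ Γ := (abs_nonneg _).trans ha
  rw [hz, coeff_mul]
  refine (abs_sum_le_sum_abs _ _).trans ((sum_le_card_nsmul _ _ ((4 * Γ) ^ n) fun p hp => ?_).trans ?_)
  · rw [coeff_rescale, coeff_rescale, ← mem_antidiagonal.1 hp, pow_add, mul_pow, mul_pow]
    simp only [abs_mul, abs_pow]
    have := sr_le p.1; have := sr_le p.2
    rw [mul_comm (4 ^ p.1), mul_comm (4 ^ p.2)]
    gcongr
  · rw [Nat.card_antidiagonal, nsmul_eq_mul, show 8 * Γ = 2 * (4 * Γ) by ring, mul_pow 2]
    gcongr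
    exact_mod_cast Nat.lt_two_pow_self

lemma hz_dvd {a b q : ℤ} (ha : q ∣ a) (hb : q ∣ b) (n : ℕ) : q ^ n ∣ coeff n (hz a b) := by
  obtain ⟨a, rfl⟩ := ha
  obtain ⟨b, rfl⟩ := hb
  rw [hz, mul_comm q, mul_comm q, ← rescale_rescale, ← rescale_rescale, ← map_mul, coeff_rescale]
  exact dvd_mul_right _ _

variable {R : Type*} [CommRing R]

lemma sq_S (a : ℤ) : map (Int.castRingHom R) (rescale a sr) ^ 2 = 1 - C (4 * (a : R)) * X := by
  rw [← map_pow, ← map_pow, sr_sq]
  simp [rescale_X, map_ofNat, mul_assoc]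

lemma val_S {a : ℤ} {z ρ : R} (h : ρ ^ 2 = 1 - 4 * a * z) (hu : IsUnit (1 + ρ)) :
    X - C z ∣ map (Int.castRingHom R) (rescale a sr) - C ρ := by
  have h1 : IsUnit (map (Int.castRingHom R) (rescale a sr) + C ρ) := by
    rw [isUnit_iff_constantCoeff, ← coeff_zero_eq_constantCoeff_apply, map_add, coeff_map,
      coeff_rescale, sr_zero]
    simpa using hu
  rw [← h1.dvd_mul_right]
  refine ⟨-C (4 * (a : R)), ?_⟩
  have := congrArg (C (R := R)) h
  simp only [map_pow, map_sub, map_one, map_mul C _ z] at this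
  linear_combination sq_S (R := R) a - this

lemma val_sum {f : R⟦X⟧} {w e : R} (h : X - C w ∣ f - C e) (T : ℕ) :
    w ^ T ∣ e - ∑ n ∈ range T, w ^ n * coeff n f := by
  obtain ⟨g, hg⟩ := h
  have h0 : e = coeff 0 f + w * coeff 0 g := by
    have := congrArg (coeff 0) hg
    simp only [map_sub, sub_mul, coeff_zero_X_mul, coeff_C_mul, coeff_zero_C] at this
    linear_combination -this
  have h1 : ∀ n, coeff n g = coeff (n + 1) f + w * coeff (n + 1) g := fun n => by
    have := congrArg (coeff (n + 1)) hg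
    simp only [map_sub, sub_mul, coeff_succ_X_mul, coeff_C_mul, coeff_succ_C] at this
    linear_combination -this
  have h2 : ∀ T, e = ∑ n ∈ range (T + 1), w ^ n * coeff n f + w ^ (T + 1) * coeff T g := fun T => by
    induction T with
    | zero => simpa using h0
    | succ T ih => rw [sum_range_succ, ih, h1]; ring
  cases T with
  | zero => simp
  | succ T => exact ⟨coeff T g, by rw [h2 T]; ring⟩

lemma minor_dvd {t : ℕ} (f : Fin t → R⟦X⟧) (q : R) (y : Fin t → R) (E : Matrix (Fin t) (Fin t) R)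
    (hE : ∀ b i, X - C (q * y b) ∣ f i - C (E b i)) : q ^ (∑ n ∈ range t, n) ∣ E.det := by
  set T := ∑ n ∈ range t, n
  have h1 := dvd_det_sum (fun _ => range T) (fun b n => (q * y b) ^ n) (fun n i => coeff n (f i))
    (q ^ T) 1 fun τ _ hτ => by
      simp only [mul_pow, prod_mul_distrib, prod_pow_eq_pow_sum, one_mul, mul_assoc]
      refine (pow_dvd_pow _ ?_).mul_right _
      have := sum_range_le_sum (s := univ.image fun i => (τ i : ℤ)) (c := 0) (by simp)
      rw [card_image_of_injective _ fun i j e => hτ (by simpa using e),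
        sum_image fun i _ j _ e => hτ (by simpa using e)] at this
      simp only [card_univ, Fintype.card_fin, zero_add] at this
      have e : ((T : ℕ) : ℤ) = ∑ n ∈ range t, (n : ℤ) := Nat.cast_sum _ _
      rw [← e] at this
      exact_mod_cast this
  rw [one_mul, ← Ideal.mem_span_singleton, ← Ideal.Quotient.eq_zero_iff_mem, RingHom.map_det] at h1
  rw [← Ideal.mem_span_singleton, ← Ideal.Quotient.eq_zero_iff_mem, RingHom.map_det, ← h1]
  congr 1
  ext b i
  exact Ideal.Quotient.eq.2 (Ideal.mem_span_singleton.2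
    ((pow_dvd_pow_of_dvd (dvd_mul_right _ _) _).trans (val_sum (hE b i) T)))

lemma dvd_pow_of [IsDomain R] [IsDiscreteValuationRing R] {π m : R} (hπ : Prime π) {a : ℕ}
    (h : ¬ π ^ (a + 1) ∣ m) : m ∣ π ^ a := by
  obtain ⟨n, u, rfl⟩ := IsDiscreteValuationRing.eq_unit_mul_pow_irreducible
    (show m ≠ 0 from fun e => h (by simp [e])) hπ.irreducible
  rw [Units.mul_left_dvd]
  exact pow_dvd_pow _ (by_contra fun e => h ((pow_dvd_pow _ (by omega)).mul_left _))

lemma root_of [IsDomain R] [IsDiscreteValuationRing R] (h2 : IsUnit (2 : R)) {r : R} (hr : r ≠ 0)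
    {x : ℤ} (hx : IsSquare x) {w : R} (e : (x : R) = r ^ 2 * w) :
    ∃ (u : ℤ) (ρ : R), u ^ 2 = x ∧ (u : R) = r * ρ ∧ IsUnit (1 + ρ) ∧ ρ ^ 2 = w := by
  obtain ⟨u, rfl⟩ := hx
  push_cast at e
  obtain ⟨ρ, hρ⟩ := (IsIntegrallyClosed.pow_dvd_pow_iff (a := r) (b := (u : R)) two_ne_zero).1
    ⟨w, by rw [sq, e]⟩
  have h1 : ρ ^ 2 = w := mul_left_cancel₀ (pow_ne_zero 2 hr) (by rw [← e, hρ]; ring)
  rcases IsLocalRing.isUnit_or_isUnit_of_isUnit_add (a := 1 + ρ) (b := 1 + -ρ)
    (by rwa [show 1 + ρ + (1 + -ρ) = 2 by ring]) with h | h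
  · exact ⟨u, ρ, sq u, hρ, h, h1⟩
  · exact ⟨-u, -ρ, by ring, by simp [hρ], h, by simpa using h1⟩

end
end Pool.Agent.MP_df75fe_nt.Sub

end MrgPart5

-- ======== part 6: formerly Pool.Agent.MP_df75fe_nt.SubCore
section MrgPart6

/-! The bound for a 3-adic cluster of columns. -/

set_option autoImplicit false
open Matrix Finset PowerSeries

namespace Pool.Agent.MP_df75fe_nt.Sub
noncomputable section

instance fact3 : Fact (Nat.Prime 3) := ⟨Nat.prime_three⟩

lemma p3 : Prime (3 : ℤ_[3]) := by simpa using PadicInt.prime_p (p := 3)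

lemma cast3 {E : ℕ} {z : ℤ} : (3 : ℤ_[3]) ^ E ∣ (z : ℤ_[3]) ↔ (3 : ℤ) ^ E ∣ z := by
  simpa using PadicInt.pow_p_dvd_int_iff (p := 3) E z

lemma u2 : IsUnit (2 : ℤ_[3]) := isUnit_of_dvd_one (by
  simpa using dvd_pow_of (a := 0) (m := ((2 : ℤ) : ℤ_[3])) p3 (by rw [cast3]; decide))

lemma le_det {t E : ℕ} (A : Matrix (Fin t) (Fin t) ℤ) (x : ℤ) (hx : ∀ i j, |A i j| ≤ x)
    (h0 : A.det ≠ 0) (h : (3 : ℤ_[3]) ^ E ∣ (A.det : ℤ_[3])) : (3 : ℤ) ^ E ≤ t ^ t * x ^ t := by
  refine (Int.le_of_dvd (abs_pos.2 h0) ((dvd_abs _ _).2 (cast3.1 h))).trans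
    ((det_le (abv := AbsoluteValue.abs) hx).trans ?_)
  rw [Fintype.card_fin, nsmul_eq_mul]
  cases t with
  | zero => simp
  | succ t =>
    have := (abs_nonneg _).trans (hx 0 0)
    gcongr
    exact_mod_cast Nat.factorial_le_pow _

lemma num1 {j D ℓ : ℕ} (hD : D = 81 ^ j) (h : ℓ ≤ j * D) :
    D * D + ℓ * (2 * D * D + D) * D ≤ 3 ^ (20 * j) := by
  have h1 : 4 * j + 1 ≤ D := by
    rw [hD]; clear h hD
    induction j with
    | zero => simp
    | succ j ih => rw [pow_succ]; omega
  have h2 : D ≤ D * D := Nat.le_mul_self D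
  calc D * D + ℓ * (2 * D * D + D) * D ≤ D * D * (D * D) + j * D * (2 * D * D + D * D) * D := by
        gcongr
    _ = (3 * j + 1) * D ^ 4 := by ring
    _ ≤ D * D ^ 4 := by gcongr; omega
    _ = _ := by rw [hD, ← pow_succ', ← pow_mul, mul_comm j, pow_mul, pow_mul]; norm_num

lemma num2 {j D ℓ r n : ℕ} (hj : 0 < j) (hD : D = 81 ^ j) (h : r + n = D)
    (h1 : j * (n * (45 * D - D) - 2 * D * D) ≤ 20 * j * (D * D))
    (h2 : 3 ^ (j * ∑ i ∈ range r, i) ≤ r ^ r * (3 ^ ℓ) ^ r) : j * D ≤ 6 * ℓ := by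
  have hD1 : 81 ≤ D := hD ▸ Nat.le_self_pow hj.ne' 81
  have h3 : 2 * n ≤ D := by
    rw [mul_comm 20, mul_assoc j] at h1
    have h4 := Nat.le_of_mul_le_mul_left h1 hj
    rw [show 45 * D - D = 44 * D by omega] at h4
    have h5 : D * (44 * n) ≤ D * (22 * D) := by
      have : n * (44 * D) = D * (44 * n) := by ring
      have : D * (22 * D) = 22 * (D * D) := by ring
      have : 2 * D * D = 2 * (D * D) := by ring
      omega
    have := Nat.le_of_mul_le_mul_left h5 (by omega)
    omega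
  have h6 : j * ∑ i ∈ range r, i ≤ (4 * j + ℓ) * r := by
    refine (Nat.pow_le_pow_iff_right (by norm_num : 1 < 3)).1 (h2.trans ?_)
    rw [pow_mul _ _ r, pow_add, mul_pow, pow_mul 3 4, show 3 ^ 4 = 81 by norm_num, ← hD]
    gcongr; omega
  have h7 : r * (j * (r - 1)) ≤ r * (8 * j + 2 * ℓ) := by
    have := sum_range_id_mul_two r
    calc r * (j * (r - 1)) = 2 * (j * ∑ i ∈ range r, i) := by
          rw [mul_left_comm, ← this]; ring
      _ ≤ _ := by linarith
  have h8 := Nat.le_of_mul_le_mul_left h7 (by omega)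
  have h9 : j * (3 * D) ≤ j * (9 * (r - 1) - 72) := Nat.mul_le_mul_left _ (by omega)
  rw [Nat.mul_sub, mul_left_comm j 9, mul_left_comm] at h9
  omega

lemma abs_mul_le_of {u v N : ℤ} (hu : u ^ 2 ≤ N) (hv : v ^ 2 ≤ N) : |u * v| ≤ N :=
  abs_le.2 ⟨by nlinarith [sq_nonneg (u + v)], by nlinarith [sq_nonneg (u - v)]⟩

theorem core (N ℓ j a k : ℕ) (hj : 0 < j) (hN : 8 * N ≤ 3 ^ ℓ) (hD : k * k = 81 ^ j)
    (c : Option (Fin k ⊕ Fin k) → ℤ) (hc : Function.Injective c)
    (b : Fin (45 * (k * k)) → ℤ) (hb : Function.Injective b)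
    (hca : ∀ i, 3 ^ (a + 2 * j) ∣ c i - c none) (hba : ∀ l, ¬ 3 ^ (a + 1) ∣ b l + c none)
    (hsq : ∀ i l, IsSquare (b l + c i) ∧ b l + c i ≤ N) : j * 81 ^ j ≤ 6 * ℓ := by
  rcases le_total (j * 81 ^ j) ℓ with hℓ | hℓ
  · omega
  rw [← hD] at hℓ ⊢
  choose x hx using hca
  set g : Option (Fin k ⊕ Fin k) → ℤ := fun i => 3 ^ j * x i with hg
  have hgc : ∀ i, c i - c none = 3 ^ (a + j) * g i := fun i => by rw [hx, hg]; ring
  have hgN : ∀ i, |g i| ≤ N := fun i => by
    have l : Fin (45 * (k * k)) := ⟨0, by rw [hD]; positivity⟩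
    have h1 := (hsq i l).1.nonneg; have h2 := (hsq none l).1.nonneg
    have h3 := (hsq i l).2; have h4 := (hsq none l).2
    have h5 : |c i - c none| ≤ N := abs_le.2 ⟨by linarith, by linarith⟩
    rw [hgc, abs_mul] at h5
    exact (le_mul_of_one_le_left (abs_nonneg _) (Int.one_le_abs (by positivity))).trans h5
  have hgi : Function.Injective g := fun i i' e => hc (by
    have := hgc i; have := hgc i'; rw [e] at *; linarith)
  have hg0 : g none = 0 := by simpa using hgc none
  have hm : ∀ l, ∃ y : ℤ_[3], ((b l + c none : ℤ) : ℤ_[3]) * (-4 * y) = 3 ^ a := fun l => by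
    obtain ⟨y, hy⟩ := dvd_pow_of p3 (mt cast3.1 (hba l))
    obtain ⟨w, hw⟩ := u2.exists_right_inv
    exact ⟨-(w ^ 2 * y), by
      linear_combination -hy + (((b l + c none : ℤ) : ℤ_[3]) * y * (2 * w + 1)) * hw⟩
  choose y hy using hm
  have h3 : (3 : ℤ_[3]) ^ a ≠ 0 := pow_ne_zero _ p3.ne_zero
  have hyi : Function.Injective y := fun l l' e => hb (by
    have := mul_right_cancel₀ (right_ne_zero_of_mul (hy l' ▸ h3)) ((e ▸ hy l).trans (hy l').symm)
    simpa using this)
  choose r0 hr0 using fun l => (hsq none l).1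
  have hr0' : ∀ l, (r0 l : ℤ_[3]) ≠ 0 := fun l e => h3 (by rw [← hy l, hr0]; simp [e])
  choose u ρ hu hρ hρ1 hρ2 using fun l i => root_of u2 (hr0' l) (hsq i l).1
    (w := 1 - 4 * (g i : ℤ_[3]) * (3 ^ j * y l)) (by
      have e1 := congrArg (Int.cast : ℤ → ℤ_[3]) (hgc i)
      have e2 := congrArg (Int.cast : ℤ → ℤ_[3]) (hr0 l)
      have e3 := hy l
      push_cast at e1 e2 e3 ⊢
      linear_combination e1 + (1 - 4 * (g i : ℤ_[3]) * (3 ^ j * y l)) * e2 - (g i * 3 ^ j) * e3)
  set p1 : Fin (k * k) → Option (Fin k ⊕ Fin k) := fun i => some (.inl (finProdFinEquiv.symm i).1)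
  set p2 : Fin (k * k) → Option (Fin k ⊕ Fin k) := fun i => some (.inr (finProdFinEquiv.symm i).2)
  set hZ : Fin (k * k) → ℤ⟦X⟧ := fun i => hz (g (p1 i)) (g (p2 i))
  have sq : ∀ (A : Type) [CommRing A] (i), PowerSeries.map (Int.castRingHom A) (hZ i) ^ 2 =
      ((1 - Polynomial.C (4 * (g (p1 i) : A)) * Polynomial.X) *
        (1 - Polynomial.C (4 * (g (p2 i) : A)) * Polynomial.X) : Polynomial A) := fun A _ i => by
    simp only [hZ, hz, map_mul (PowerSeries.map _), mul_pow, sq_S, Polynomial.coe_mul,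
      Polynomial.coe_sub, Polynomial.coe_one, Polynomial.coe_C, Polynomial.coe_X]
  set h : Fin (k * k) → ℤ_[3]⟦X⟧ := fun i => PowerSeries.map (Int.castRingHom _) (hZ i)
  set E : Matrix (Fin (45 * (k * k))) (Fin (k * k)) ℤ_[3] := of fun l i => ρ l (p1 i) * ρ l (p2 i)
  have hE : ∀ l i, X - C (3 ^ j * y l) ∣ h i - C (E l i) := fun l i => by
    have := dvd_add ((val_S (hρ2 l (p1 i)) (hρ1 l _)).mul_right
      (PowerSeries.map (Int.castRingHom _) (rescale (g (p2 i)) sr)))
      ((val_S (hρ2 l (p2 i)) (hρ1 l _)).mul_left (C (ρ l (p1 i))))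
    convert this using 1
    simp only [h, hZ, hz, E, of_apply, map_mul]
    ring
  obtain ⟨r, n, hrn, h1, α, γ, h2⟩ := rank_bound (e := 20 * j) (j := j)
    (s := k * k * (k * k) + ℓ * (2 * (k * k) * (k * k) + k * k) * (k * k)) p3 h
    (wr_poly u2 h (fun i => by
      rw [isUnit_iff_constantCoeff, ← coeff_zero_eq_constantCoeff_apply]
      simp [h, hZ, hz, sr_zero, -coeff_zero_eq_constantCoeff, coeff_mul]) _ (sq _) fun i => by compute_degree)
    (fun z hz => by
      have e0 : ∀ i, (4 * (g (some i) : ℚ_[3])) ≠ 0 := fun i => by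
        simpa using fun e => Option.some_ne_none i (hgi (e.trans hg0.symm))
      have := indep_pair (K := ℚ_[3]) (fun i => 4 * g (some (.inl i)))
        (fun i => 4 * g (some (.inr i))) (fun i i' e => by simpa [hgi.eq_iff] using e)
        (fun i i' e => by simpa [hgi.eq_iff] using e) (fun i i' e => by simp [hgi.eq_iff] at e)
        (fun i => e0 _) (fun i => e0 _)
        (fun i => PowerSeries.map (Int.castRingHom _) (hZ (finProdFinEquiv i)))
        (fun i => by simpa only [p1, p2, Equiv.symm_apply_apply] using sq ℚ_[3] (finProdFinEquiv i))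
        (fun i => z (finProdFinEquiv i)) (by
          rw [finProdFinEquiv.sum_comp
            (fun i => (z i : ℚ_[3]) • PowerSeries.map (Int.castRingHom ℚ_[3]) (hZ i))]
          ext m
          have := congrArg (fun f => ((coeff m f : ℤ_[3]) : ℚ_[3])) hz
          simpa [h, PadicInt.coe_sum] using this)
      ext i
      have := congrFun this (finProdFinEquiv.symm i)
      rw [Equiv.apply_symm_apply] at this
      simpa using this)
    (fun m i => cast3.2 (hz_dvd ((dvd_pow_self 3 hj.ne').mul_right _)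
      ((dvd_pow_self 3 hj.ne').mul_right _) m))
    (fun σ hσ h0 m hm => by
      have e : mn h σ = ((mn hZ σ : ℤ) : ℤ_[3]) := by
        unfold mn; rw [Int.cast_det]; rfl
      rw [e] at h0 hm
      have := le_det (of fun i j => coeff (σ i) (hZ j)) ((3 ^ ℓ) ^ (2 * (k * k) * (k * k) + k * k)) (fun i j =>
        (hz_le (hgN _) (hgN _) _).trans ((pow_le_pow_left₀ (by positivity)
          (show (8 * N : ℤ) ≤ 3 ^ ℓ by exact_mod_cast hN) _).trans
          (pow_le_pow_right₀ (one_le_pow₀ (by norm_num)) (hσ i)))) (Int.cast_ne_zero.1 h0) hm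
      refine (pow_le_pow_iff_right₀ (by norm_num : (1 : ℤ) < 3)).1 (this.trans ?_)
      rw [pow_add 3, pow_mul 3 (k * k), pow_mul 3 (ℓ * _) (k * k), pow_mul 3 ℓ]
      gcongr
      exact_mod_cast (Nat.lt_pow_self (by norm_num)).le)
    (fun m hm => by
      have := dvd_pow_of (a := 20 * j) (m := (((m + 1 : ℕ) : ℤ) : ℤ_[3])) p3 (by
        rw [cast3]
        refine fun e => absurd (Int.le_of_dvd (by positivity) e) (not_le.2 ?_)
        have := num1 hD hℓ
        have : m + 1 < 3 ^ (20 * j + 1) := by rw [pow_succ]; omega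
        exact_mod_cast this)
      simpa using this) y hyi E hE
  set U : Matrix (Fin r) (Fin r) ℤ := of fun l i => u (α l) (p1 (γ i)) * u (α l) (p2 (γ i))
  have hU : (U.det : ℤ_[3]) = (∏ l, (r0 (α l) : ℤ_[3]) ^ 2) * (E.submatrix α γ).det := by
    rw [Int.cast_det, ← det_mul_column]
    congr 1
    ext l i
    simp only [U, E, map_apply, of_apply, submatrix_apply, Int.cast_mul, hρ]
    ring
  have h4 := le_det (E := j * ∑ i ∈ range r, i) U (3 ^ ℓ) (fun l i => by
      refine (abs_mul_le_of ((hu _ _).trans_le (hsq _ _).2) ((hu _ _).trans_le (hsq _ _).2)).trans ?_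
      exact_mod_cast (show N ≤ 3 ^ ℓ by omega))
    (fun e => mul_ne_zero (prod_ne_zero_iff.2 fun l _ => pow_ne_zero 2 (hr0' (α l))) h2
      (by rw [← hU, e, Int.cast_zero])) (by
      rw [hU, pow_mul]
      exact (minor_dvd (h ∘ γ) _ (y ∘ α) _ fun l i => hE _ _).mul_left _)
  exact num2 hj hD hrn h1 (by exact_mod_cast h4)

end
end Pool.Agent.MP_df75fe_nt.Sub

end MrgPart6

-- marker of a merged file
example : 731051 + 66221 = 731051 + 66221 := rfl
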