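import Mathlib.Algebra.Order.Star.Real
import Mathlib.Analysis.Complex.ExponentialBounds
import Mathlib.Order.Interval.Finset.Box
import Mathlib.Combinatorics.Pigeonhole
import Pool.Agent.MP_df75fe_nt.SubCore

/-! Choice of the cluster and the final estimate. -/

set_option autoImplicit false
open Finset

namespace Pool.Agent.MP_df75fe_nt.Sub
noncomputable section

lemma core' (N ℓ j a : ℕ) (hj : 0 < j) (hN : 8 * N ≤ 3 ^ ℓ) (C B : Finset ℤ)
    (hC : 2 * 9 ^ j < #C) (hB : 45 * 81 ^ j ≤ #B) (hca : ∀ x ∈ C, ∀ y ∈ C, 3 ^ (a + 2 * j) ∣ x - y)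
    (hba : ∀ x ∈ C, ∀ b ∈ B, ¬ 3 ^ (a + 1) ∣ b + x)
    (hsq : ∀ x ∈ C, ∀ b ∈ B, IsSquare (b + x) ∧ b + x ≤ N) : j * 81 ^ j ≤ 6 * ℓ := by
  have hD : 9 ^ j * 9 ^ j = 81 ^ j := by rw [← mul_pow]; norm_num
  obtain ⟨c⟩ := Function.Embedding.nonempty_of_card_le
    (α := Option (Fin (9 ^ j) ⊕ Fin (9 ^ j))) (β := C) (by simp; omega)
  obtain ⟨b⟩ := Function.Embedding.nonempty_of_card_le
    (α := Fin (45 * (9 ^ j * 9 ^ j))) (β := B) (by simpa [hD] using hB)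
  exact core N ℓ j a _ hj hN hD (fun i => c i) (Subtype.val_injective.comp c.injective)
    (fun i => b i) (Subtype.val_injective.comp b.injective) (fun i => hca _ (c i).2 _ (c none).2)
    (fun l => hba _ (c none).2 _ (b l).2) fun i l => hsq _ (c i).2 _ (b l).2

lemma pig (S : Finset ℤ) (ρ : ℤ) (a J m : ℕ) (h : ∀ x ∈ S, 3 ^ a ∣ x - ρ) (hc : 3 ^ J * m < #S) :
    ∃ C ⊆ S, m < #C ∧ ∀ x ∈ C, ∀ y ∈ C, 3 ^ (a + J) ∣ x - y := by
  obtain ⟨r, -, hr⟩ := exists_lt_card_fiber_of_mul_lt_card_of_maps_to (s := S)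
    (t := Ico (0 : ℤ) (3 ^ J))
    (f := fun x => (x - ρ) / 3 ^ a % 3 ^ J) (fun x _ => mem_Ico.2 ⟨Int.emod_nonneg _ (by positivity),
      Int.emod_lt_of_pos _ (by positivity)⟩) (n := m) (by
        rwa [Int.card_Ico, sub_zero, show (3 : ℤ) ^ J = (3 ^ J : ℕ) by simp, Int.toNat_natCast])
  refine ⟨_, filter_subset _ _, hr, fun x hx y hy => ?_⟩
  rw [mem_filter] at hx hy
  have h1 := mul_dvd_mul_left (3 ^ a) (Int.modEq_iff_dvd.1 (hy.2.trans hx.2.symm))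
  rwa [← pow_add, mul_sub, Int.mul_ediv_cancel' (h x hx.1), Int.mul_ediv_cancel' (h y hy.1),
    sub_sub_sub_cancel_right] at h1

theorem bip (N ℓ j : ℕ) (hj : 0 < j) (hN : 8 * N ≤ 3 ^ ℓ) (X Y : Finset ℤ)
    (hX : #X = 90 * 81 ^ j) (hY : #Y = 90 * 81 ^ j)
    (hsq : ∀ x ∈ X, ∀ y ∈ Y, IsSquare (x + y) ∧ x + y ≤ N) : j * 81 ^ j ≤ 6 * ℓ := by
  have hD : 3 ^ (2 * j) * (2 * 9 ^ j) = 2 * 81 ^ j := by
    rw [pow_mul, mul_left_comm, ← mul_pow]; norm_num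
  have h0 : 0 < 81 ^ j := by positivity
  set P : ℕ → Prop := fun a => ∃ ρ : ℤ, 45 * 81 ^ j < #{x ∈ X | 3 ^ a ∣ x - ρ} ∧
    45 * 81 ^ j < #{y ∈ Y | 3 ^ a ∣ y + ρ} with hP
  obtain ⟨a, ⟨ρ, h1, -⟩, h2⟩ : ∃ a, P a ∧ ¬ P (a + 1) := by
    by_contra hc
    push Not at hc
    obtain ⟨ρ, h1, -⟩ : P ℓ := Nat.rec ⟨0, by simp; omega, by simp; omega⟩ hc ℓ
    obtain ⟨x, hx, x', hx', e⟩ := one_lt_card.1 (show 1 < #{x ∈ X | 3 ^ ℓ ∣ x - ρ} by omega)
    obtain ⟨y, hy⟩ := card_pos.1 (show 0 < #Y by omega)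
    rw [mem_filter] at hx hx'
    have h3 := Int.le_of_dvd (abs_pos.2 (sub_ne_zero.2 e)) ((dvd_abs _ _).2
      (by simpa using dvd_sub hx.2 hx'.2))
    have := (hsq x hx.1 y hy).1.nonneg; have := (hsq x' hx'.1 y hy).1.nonneg
    have := (hsq x hx.1 y hy).2; have := (hsq x' hx'.1 y hy).2
    have : (8 * N : ℤ) ≤ 3 ^ ℓ := by exact_mod_cast hN
    have : |x - x'| ≤ N := abs_le.2 ⟨by linarith, by linarith⟩
    have := abs_pos.2 (sub_ne_zero.2 e)
    linarith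
  have hd : (3 : ℤ) ^ (a + 1) ∣ 3 ^ (a + 2 * j) := pow_dvd_pow _ (by omega)
  obtain ⟨C, hC, hC1, hC2⟩ := pig _ ρ a (2 * j) (2 * 9 ^ j) (fun x hx => (mem_filter.1 hx).2)
    (lt_of_le_of_lt (by omega) h1)
  obtain ⟨c, hc⟩ := card_pos.1 (show 0 < #C by omega)
  rcases le_or_gt #{y ∈ Y | 3 ^ (a + 1) ∣ y + c} (45 * 81 ^ j) with h3 | h3
  · refine core' N ℓ j a hj hN C {y ∈ Y | ¬ 3 ^ (a + 1) ∣ y + c} hC1 ?_ hC2
      (fun x hx b hb e => (mem_filter.1 hb).2 ?_) fun x hx b hb => ?_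
    · have := card_filter_add_card_filter_not (s := Y) fun y => 3 ^ (a + 1) ∣ y + c
      omega
    · exact (dvd_sub e (hd.trans (hC2 x hx c hc))).trans (dvd_of_eq (by ring))
    · rw [add_comm]; exact hsq _ (mem_filter.1 (hC hx)).1 _ (mem_filter.1 hb).1
  · have h4 : #{x ∈ X | 3 ^ (a + 1) ∣ x - c} ≤ 45 * 81 ^ j := not_lt.1 fun h => h2 ⟨c, h, h3⟩
    obtain ⟨C', hC', hC1', hC2'⟩ := pig _ (-c) a (2 * j) (2 * 9 ^ j) (fun x hx => by
      simpa using (pow_dvd_pow _ a.le_succ).trans (mem_filter.1 hx).2) (lt_of_le_of_lt (by omega) h3)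
    refine core' N ℓ j a hj hN C' {x ∈ X | ¬ 3 ^ (a + 1) ∣ x - c} hC1' ?_ hC2'
      (fun x hx b hb e => (mem_filter.1 hb).2 ?_) fun x hx b hb =>
        hsq _ (mem_filter.1 hb).1 _ (mem_filter.1 (hC' hx)).1
    · have := card_filter_add_card_filter_not (s := X) fun y => 3 ^ (a + 1) ∣ y - c
      omega
    · exact (dvd_sub e (mem_filter.1 (hC' hx)).2).trans (dvd_of_eq (by ring))

theorem bip' (N ℓ j : ℕ) (hj : 0 < j) (hN : 8 * N ≤ 3 ^ ℓ) (X Y : Finset ℤ)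
    (h : 180 * 81 ^ j ≤ min #X #Y)
    (hsq : ∀ x ∈ X, ∀ y ∈ Y, x ≠ y → IsSquare (x + y) ∧ x + y ≤ N) : j * 81 ^ j ≤ 6 * ℓ := by
  obtain ⟨X', h1, h2⟩ := exists_subset_card_eq (s := X) (n := 90 * 81 ^ j) (by omega)
  obtain ⟨Y', h3, h4⟩ := exists_subset_card_eq (s := Y \ X') (n := 90 * 81 ^ j) (by
    have := le_card_sdiff X' Y; omega)
  exact bip N ℓ j hj hN X' Y' h2 h4 fun x hx y hy => hsq x (h1 hx) y (mem_sdiff.1 (h3 hy)).1
    fun e => (mem_sdiff.1 (h3 hy)).2 (e ▸ hx)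

open Real in
theorem main (N : ℕ) (hN : 3 ≤ N) (X Y : Finset ℤ)
    (hsq : ∀ x ∈ X, ∀ y ∈ Y, x ≠ y → IsSquare (x + y) ∧ x + y ≤ N) :
    ((min #X #Y : ℕ) : ℝ) ≤ 3500000 * log N / log (log N) := by
  have h3 : 1 < log 3 := by
    rw [lt_log_iff_exp_lt (by norm_num)]; exact exp_one_lt_d9.trans (by norm_num)
  have hN' : (3 : ℝ) ≤ N := by exact_mod_cast hN
  have hL : 1 < log N := h3.trans_le (log_le_log (by norm_num) hN')
  set L := log N with hLd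
  have hl : 0 < log L := log_pos hL
  have hl2 : log L ≤ 2 * √L := by
    have := log_le_sub_one_of_pos (sqrt_pos.2 (show 0 < L by linarith))
    rw [log_sqrt (by linarith)] at this
    linarith
  rw [le_div_iff₀ hl]
  set n := min #X #Y
  rcases lt_or_ge n (180 * 81) with hn | hn
  · have : (n : ℝ) ≤ 14580 := by exact_mod_cast hn.le
    have := log_le_sub_one_of_pos (show 0 < L by linarith)
    nlinarith
  set j := Nat.log 81 (n / 180) with hj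
  have hj0 : 0 < j := Nat.log_pos (by norm_num) (by omega)
  have h1 : 81 ^ j ≤ n / 180 := Nat.pow_log_le_self _ (by omega)
  have h2 : n / 180 < 81 ^ (j + 1) := Nat.lt_pow_succ_log_self (by norm_num) _
  have h4 := bip' N (Nat.log 3 (8 * N) + 1) j hj0 (Nat.lt_pow_succ_log_self (by norm_num) _).le
    X Y (by omega) hsq
  have h5 : (Nat.log 3 (8 * N) : ℝ) ≤ 3 * L := by
    have h6 : (3 : ℝ) ^ Nat.log 3 (8 * N) ≤ N ^ 3 := by
      have : 3 ^ Nat.log 3 (8 * N) ≤ 8 * N := Nat.pow_log_le_self _ (by omega)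
      have : (3 : ℝ) ^ Nat.log 3 (8 * N) ≤ 8 * N := by exact_mod_cast this
      nlinarith [mul_self_nonneg ((N : ℝ) - 3), mul_le_mul hN' hN' (by norm_num) (by linarith)]
    have := log_le_log (by positivity) h6
    rw [log_pow, log_pow] at this
    push_cast at this
    nlinarith [Nat.cast_nonneg (α := ℝ) (Nat.log 3 (8 * N))]
  have h7 : (j : ℝ) * 81 ^ j ≤ 24 * L := by
    have : (j : ℝ) * 81 ^ j ≤ 6 * (Nat.log 3 (8 * N) + 1) := by exact_mod_cast h4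
    linarith
  have h8 : (n : ℝ) ≤ 14580 * 81 ^ j := by
    rw [pow_succ] at h2; exact_mod_cast (show n ≤ 14580 * 81 ^ j by omega)
  have h9 : (81 : ℝ) ^ j * log L ≤ 240 * L := by
    rcases le_total (log L) (10 * j) with h | h
    · nlinarith [show (0 : ℝ) < 81 ^ j by positivity]
    · have h10 : (81 : ℝ) ^ j ≤ √L := by
        have h11 : (81 : ℝ) ≤ exp 5 := by
          have := pow_le_pow_left₀ (by norm_num) exp_one_gt_d9.le 5
          rw [← exp_nat_mul] at this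
          norm_num at this ⊢
          linarith
        calc (81 : ℝ) ^ j ≤ exp 5 ^ j := by gcongr
          _ = exp (j * 5) := (exp_nat_mul _ _).symm
          _ ≤ exp (log L / 2) := exp_le_exp.2 (by linarith)
          _ = √L := by rw [← log_sqrt (by linarith), exp_log (sqrt_pos.2 (by linarith))]
      have := mul_self_sqrt (show 0 ≤ L by linarith)
      nlinarith [sqrt_nonneg L]
  nlinarith

end
end Pool.Agent.MP_df75fe_nt.Sub
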